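import Pool.Agent.Helper10.DE.Geo.Defs

/-!
# DE VIII.2  The boundary in a composed direction

`bd Y u` is the number of `x ∈ Y` with `x + u ∉ Y`.
PROOF.  `bd Y 0 = 0`.  `bd Y (u + v) ≤ bd Y u + bd Y v`: if `x ∈ Y`, `x + u + v ∉ Y` then either
`x + u ∉ Y` (counted in `bd Y u`), or `x + u ∈ Y` and `(x + u) + v ∉ Y` (counted in `bd Y v`,
injectively by `x ↦ x + u`).  Induction on the list.
-/

noncomputable section

namespace DE

variable {d : ℕ}

theorem bd_zero (Y : Finset (Site d)) : bd Y 0 = 0 := by
  unfold bd
  rw [Finset.card_eq_zero, Finset.filter_eq_empty_iff]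
  intro x hx
  simpa using hx

theorem bd_add (Y : Finset (Site d)) (u v : Site d) : bd Y (u + v) ≤ bd Y u + bd Y v := by
  classical
  unfold bd
  have h1 : (Y.filter fun x => x + (u + v) ∉ Y) ⊆
      (Y.filter fun x => x + u ∉ Y) ∪ ((Y.filter fun x => x + v ∉ Y).image fun z => z - u) := by
    intro x hx
    rw [Finset.mem_filter] at hx
    rw [Finset.mem_union, Finset.mem_filter, Finset.mem_image]
    by_cases h : x + u ∈ Y
    · right
      refine ⟨x + u, Finset.mem_filter.2 ⟨h, ?_⟩, by simp⟩
      rw [add_assoc]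
      exact hx.2
    · left
      exact ⟨hx.1, h⟩
  refine (Finset.card_le_card h1).trans ((Finset.card_union_le _ _).trans ?_)
  exact Nat.add_le_add_left Finset.card_image_le _

theorem bd_list (Y : Finset (Site d)) (M : ℕ) (l : List (Site d)) (h : ∀ u ∈ l, bd Y u ≤ M) :
    bd Y l.sum ≤ l.length * M := by
  induction l with
  | nil => simp [bd_zero]
  | cons u l ih =>
    rw [List.sum_cons, List.length_cons]
    have h1 := bd_add Y u l.sum
    have h2 := ih fun w hw => h w (List.mem_cons_of_mem _ hw)
    have h3 := h u (List.mem_cons_self)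
    have h4 : (l.length + 1) * M = M + l.length * M := by ring
    omega

end DE
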