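import Pool.Agent.Helper10.DE.Geo.Defs

/-!
# DE VIII.5  The bump function `(max 0 (1 - |y - c|² / ρ²))²`

With `t = tt c ρ y = |y - c|²/ρ²` (Euclidean), `ψ(t) = (max 0 (1 - t))²`:
`0 ≤ ψ(t') - ψ(t) + 2 max(0, 1 - t) (t' - t) ≤ (t' - t)²` for all real `t, t'` (four cases).
Further `t' - t = (2 (y - c)·v + |v|²)/ρ²` for `t' = tt c ρ (y + v)`.
`bump_taylor`: `bump (y+v) - bump y - grad y · v = [ψ(t') - ψ(t) + 2 max(0,1-t)(t'-t)]
  - 2 max(0, 1 - t) |v|²/ρ²` (as `grad y · v = -4 max(0,1-t) (y - c)·v/ρ²`).  If `t > 1` and `t' > 1`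
everything is `0`.  Otherwise `|y - c| ≤ ρ + |v|` with `|v|² ≤ d K²`, so
`|t' - t| ≤ (2 (ρ + |v|) |v| + |v|²)/ρ² ≤ C'/ρ` for `ρ ≥ 1`.
`grad_le`: if `t ≤ 1`: `4 (1 - t) |y i - c i|/ρ² ≤ 4 (1 - t) √t/ρ ≤ 4/ρ`; else `0`.
`bump_out`: `y ∉ bx c ρ` gives some `|y i - c i| > ρ`, so `t > 1`.  (Also fine if `ρ = 0`: then
`x / 0 = 0`, `tt = 0` - NOT fine, hence the hypothesis `1 ≤ ρ`.)
`grad_lip`: `max(0, 1 - t)` changes by at most `|t' - t| ≤ C'/ρ` (if `t ≤ 1` or `t' ≤ 1`), and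
`|y i - c i| ≤ ρ + 1` there; the factor `y i - c i` changes by at most `1`.
`bump_low`: `|y - c|² ≤ d n² ≤ ρ²/2`, so `bump ≥ (1/2)² = 1/4`.
-/

noncomputable section

namespace DE

variable {d : ℕ}

namespace BumpAux

theorem psi (t t' : ℝ) :
    0 ≤ (max 0 (1 - t')) ^ 2 - (max 0 (1 - t)) ^ 2 + 2 * max 0 (1 - t) * (t' - t) ∧
    (max 0 (1 - t')) ^ 2 - (max 0 (1 - t)) ^ 2 + 2 * max 0 (1 - t) * (t' - t) ≤ (t' - t) ^ 2 := by
  rcases le_total t 1 with h | h <;> rcases le_total t' 1 with h' | h'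
  · rw [max_eq_right (by linarith), max_eq_right (by linarith)]
    constructor <;> nlinarith [sq_nonneg (t' - t)]
  · rw [max_eq_left (by linarith), max_eq_right (by linarith)]
    constructor
    · nlinarith [mul_nonneg (sub_nonneg.2 h) (sub_nonneg.2 h'),
        mul_nonneg (sub_nonneg.2 h) (sub_nonneg.2 h)]
    · nlinarith [sq_nonneg (t' - 1)]
  · rw [max_eq_right (by linarith), max_eq_left (by linarith)]
    constructor
    · nlinarith [sq_nonneg (1 - t')]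
    · nlinarith [mul_nonneg (sub_nonneg.2 h) (sub_nonneg.2 h'), sq_nonneg (t - 1)]
  · rw [max_eq_left (by linarith), max_eq_left (by linarith)]
    constructor
    · simp
    · nlinarith [sq_nonneg (t' - t)]

theorem tt_diff (c : Site d) (ρ : ℝ) (y v : Site d) :
    tt c ρ (y + v) - tt c ρ y
      = (2 * ∑ i, ((y i : ℝ) - c i) * v i + ∑ i, (v i : ℝ) ^ 2) / ρ ^ 2 := by
  unfold tt
  rw [← sub_div]
  congr 1
  rw [← Finset.sum_sub_distrib, Finset.mul_sum, ← Finset.sum_add_distrib]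
  refine Finset.sum_congr rfl fun i _ => ?_
  simp only [Pi.add_apply, Int.cast_add]
  ring

theorem tt_nonneg (c : Site d) (ρ : ℝ) (y : Site d) : 0 ≤ tt c ρ y :=
  div_nonneg (Finset.sum_nonneg fun _ _ => sq_nonneg _) (sq_nonneg _)

theorem max_le_one (c : Site d) (ρ : ℝ) (y : Site d) : max 0 (1 - tt c ρ y) ≤ 1 :=
  max_le zero_le_one (by linarith [tt_nonneg c ρ y])

theorem coord (c : Site d) {ρ : ℝ} (hρ : 0 < ρ) (y : Site d) (h : tt c ρ y ≤ 1) (i : Fin d) :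
    |(y i : ℝ) - c i| ≤ ρ := by
  unfold tt at h
  rw [div_le_one (by positivity)] at h
  have h1 : ((y i : ℝ) - c i) ^ 2 ≤ ∑ j, ((y j : ℝ) - c j) ^ 2 :=
    Finset.single_le_sum (f := fun j => ((y j : ℝ) - c j) ^ 2) (fun _ _ => sq_nonneg _)
      (Finset.mem_univ i)
  exact abs_le_of_sq_le_sq (h1.trans h) hρ.le

theorem coord' (c : Site d) {ρ : ℝ} (hρ : 1 ≤ ρ) (y v : Site d) (K : ℝ) (hK : 0 ≤ K)
    (hv : ∀ i, |(v i : ℝ)| ≤ K)
    (h : tt c ρ y ≤ 1 ∨ tt c ρ (y + v) ≤ 1) (i : Fin d) : |(y i : ℝ) - c i| ≤ ρ + K := by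
  rcases h with h | h
  · linarith [coord c (by linarith) y h i]
  · have h1 := coord c (by linarith) (y + v) h i
    have h2 := hv i
    simp only [Pi.add_apply, Int.cast_add] at h1
    rw [abs_le] at h1 h2 ⊢
    constructor <;> linarith [h1.1, h1.2, h2.1, h2.2]

theorem diff (c : Site d) {ρ : ℝ} (hρ : 1 ≤ ρ) (y v : Site d) (K : ℝ) (hK : 0 ≤ K)
    (hv : ∀ i, |(v i : ℝ)| ≤ K) (h : tt c ρ y ≤ 1 ∨ tt c ρ (y + v) ≤ 1) :
    |tt c ρ (y + v) - tt c ρ y| ≤ (2 * d * K + 3 * d * K ^ 2) / ρ := by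
  have hρ0 : 0 < ρ := by linarith
  have hc := coord' c hρ y v K hK hv h
  have h1 : |∑ i, ((y i : ℝ) - c i) * v i| ≤ d * ((ρ + K) * K) := by
    refine (Finset.abs_sum_le_sum_abs _ _).trans ?_
    have h2 : ∀ i ∈ (Finset.univ : Finset (Fin d)), |((y i : ℝ) - c i) * v i| ≤ (ρ + K) * K := by
      intro i _
      rw [abs_mul]
      exact mul_le_mul (hc i) (hv i) (abs_nonneg _) (by linarith)
    refine (Finset.sum_le_sum h2).trans (le_of_eq ?_)
    rw [Finset.sum_const, Finset.card_univ, Fintype.card_fin, nsmul_eq_mul]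
  have h2 : |∑ i, (v i : ℝ) ^ 2| ≤ d * K ^ 2 := by
    refine (Finset.abs_sum_le_sum_abs _ _).trans ?_
    have h3 : ∀ i ∈ (Finset.univ : Finset (Fin d)), |(v i : ℝ) ^ 2| ≤ K ^ 2 := by
      intro i _
      rw [abs_pow]
      exact pow_le_pow_left₀ (abs_nonneg _) (hv i) 2
    refine (Finset.sum_le_sum h3).trans (le_of_eq ?_)
    rw [Finset.sum_const, Finset.card_univ, Fintype.card_fin, nsmul_eq_mul]
  rw [tt_diff, abs_div, abs_of_pos (by positivity : (0 : ℝ) < ρ ^ 2)]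
  rw [div_le_div_iff₀ (by positivity) hρ0]
  have hd : (0 : ℝ) ≤ d := Nat.cast_nonneg d
  have h3 : |2 * ∑ i, ((y i : ℝ) - c i) * v i + ∑ i, (v i : ℝ) ^ 2|
      ≤ 2 * (d * ((ρ + K) * K)) + d * K ^ 2 := by
    refine (abs_add_le _ _).trans ?_
    rw [abs_mul, abs_two]
    linarith
  have h4 : 2 * (d * ((ρ + K) * K)) + d * K ^ 2 ≤ (2 * d * K + 3 * d * K ^ 2) * ρ := by
    have h5 : 3 * (d : ℝ) * K ^ 2 ≤ 3 * (d : ℝ) * K ^ 2 * ρ :=
      le_mul_of_one_le_right (by positivity) hρ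
    nlinarith
  calc |2 * ∑ i, ((y i : ℝ) - c i) * v i + ∑ i, (v i : ℝ) ^ 2| * ρ
      ≤ ((2 * d * K + 3 * d * K ^ 2) * ρ) * ρ :=
        mul_le_mul_of_nonneg_right (h3.trans h4) hρ0.le
    _ = (2 * d * K + 3 * d * K ^ 2) * ρ ^ 2 := by ring

theorem cast_abs {K : ℕ} {v : Site d} (hv : ∀ i, |v i| ≤ K) (i : Fin d) :
    |(v i : ℝ)| ≤ (K : ℝ) := by
  have h := hv i
  have h2 : ((|v i| : ℤ) : ℝ) ≤ ((K : ℤ) : ℝ) := by exact_mod_cast h
  simpa using h2

theorem max_zero {c : Site d} {ρ : ℝ} {y : Site d} (h : 1 < tt c ρ y) :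
    max 0 (1 - tt c ρ y) = 0 := max_eq_left (by linarith)

end BumpAux

theorem bump_taylor (d K : ℕ) : ∃ C : ℝ, 0 < C ∧ ∀ (c : Site d) (ρ : ℝ), 1 ≤ ρ →
    ∀ (y v : Site d), (∀ i, |v i| ≤ K) →
    |bump c ρ (y + v) - bump c ρ y - ∑ i, grad c ρ y i * v i| ≤ C / ρ ^ 2 := by
  refine ⟨(2 * d * K + 3 * d * K ^ 2) ^ 2 + 2 * (d * K ^ 2) + 1, by positivity, ?_⟩
  intro c ρ hρ y v hv
  have hρ0 : 0 < ρ := by linarith
  have hv' := BumpAux.cast_abs hv
  have hd : (0 : ℝ) ≤ d := Nat.cast_nonneg d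
  set m := max 0 (1 - tt c ρ y) with hm
  set P := ∑ i, ((y i : ℝ) - c i) * v i with hP
  set V := ∑ i, (v i : ℝ) ^ 2 with hV
  have hgrad : ∑ i, grad c ρ y i * v i = -4 * m * P / ρ ^ 2 := by
    unfold grad
    rw [hP, Finset.mul_sum, Finset.sum_div]
    refine Finset.sum_congr rfl fun i _ => ?_
    rw [← hm]
    ring
  have hdiff := BumpAux.tt_diff c ρ y v
  rw [← hP, ← hV] at hdiff
  have hm0 : 0 ≤ m := le_max_left _ _
  have hm1 : m ≤ 1 := BumpAux.max_le_one c ρ y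
  have hV0 : 0 ≤ V := Finset.sum_nonneg fun _ _ => sq_nonneg _
  have hV1 : V ≤ d * K ^ 2 := by
    have h3 : ∀ i ∈ (Finset.univ : Finset (Fin d)), (v i : ℝ) ^ 2 ≤ (K : ℝ) ^ 2 := by
      intro i _
      rw [← sq_abs]
      exact pow_le_pow_left₀ (abs_nonneg _) (hv' i) 2
    refine (Finset.sum_le_sum h3).trans (le_of_eq ?_)
    rw [Finset.sum_const, Finset.card_univ, Fintype.card_fin, nsmul_eq_mul]
  have hpsi := BumpAux.psi (tt c ρ y) (tt c ρ (y + v))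
  rw [← hm] at hpsi
  set E := (max 0 (1 - tt c ρ (y + v))) ^ 2 - m ^ 2 + 2 * m * (tt c ρ (y + v) - tt c ρ y) with hE
  have hE1 : E ≤ (2 * d * K + 3 * d * K ^ 2) ^ 2 / ρ ^ 2 := by
    by_cases h : tt c ρ y ≤ 1 ∨ tt c ρ (y + v) ≤ 1
    · refine hpsi.2.trans ?_
      rw [← sq_abs, ← div_pow]
      exact pow_le_pow_left₀ (abs_nonneg _)
        (BumpAux.diff c hρ y v K (Nat.cast_nonneg K) hv' h) 2
    · push Not at h
      have h1 : E = 0 := by
        rw [hE, hm, BumpAux.max_zero h.1, BumpAux.max_zero h.2]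
        ring
      rw [h1]
      positivity
  have hkey : bump c ρ (y + v) - bump c ρ y - ∑ i, grad c ρ y i * v i
      = E - 2 * m * V / ρ ^ 2 := by
    rw [hgrad, hE, hdiff]
    unfold bump
    rw [← hm]
    ring
  rw [hkey]
  have hmV : 2 * m * V / ρ ^ 2 ≤ 2 * (d * K ^ 2) / ρ ^ 2 := by
    refine div_le_div_of_nonneg_right ?_ (by positivity)
    nlinarith [mul_le_mul hm1 hV1 hV0 zero_le_one]
  have hmV0 : 0 ≤ 2 * m * V / ρ ^ 2 := by positivity
  have hone : 0 ≤ 1 / ρ ^ 2 := by positivity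
  rw [add_div, add_div, abs_le]
  have hA : 0 ≤ (2 * d * K + 3 * d * K ^ 2 : ℝ) ^ 2 / ρ ^ 2 := by positivity
  constructor
  · linarith [hpsi.1]
  · have hB : 0 ≤ 2 * (d * K ^ 2 : ℝ) / ρ ^ 2 := by positivity
    linarith

theorem grad_le (c : Site d) (ρ : ℝ) (hρ : 0 < ρ) (y : Site d) (i : Fin d) :
    |grad c ρ y i| ≤ 4 / ρ := by
  unfold grad
  by_cases h : tt c ρ y ≤ 1
  · have h1 := BumpAux.coord c hρ y h i
    have h2 : |max 0 (1 - tt c ρ y)| ≤ 1 := by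
      rw [abs_of_nonneg (le_max_left _ _)]
      exact BumpAux.max_le_one c ρ y
    rw [abs_div, abs_mul, abs_mul, abs_of_pos (by positivity : (0 : ℝ) < ρ ^ 2),
      div_le_div_iff₀ (by positivity) hρ]
    have h3 : |(-4 : ℝ)| = 4 := by norm_num
    rw [h3]
    have h4 : 4 * |max 0 (1 - tt c ρ y)| * |(y i : ℝ) - c i| ≤ 4 * 1 * ρ :=
      mul_le_mul (by linarith) h1 (abs_nonneg _) (by norm_num)
    calc 4 * |max 0 (1 - tt c ρ y)| * |(y i : ℝ) - c i| * ρ ≤ (4 * 1 * ρ) * ρ :=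
          mul_le_mul_of_nonneg_right h4 hρ.le
      _ = 4 * ρ ^ 2 := by ring
  · push Not at h
    rw [BumpAux.max_zero h]
    simp only [mul_zero, zero_mul, zero_div, abs_zero]
    positivity

theorem bump_out (c : Site d) (ρ : ℕ) (hρ : 1 ≤ ρ) (y : Site d) (hy : y ∉ bx c ρ) :
    bump c ρ y = 0 ∧ ∀ i, grad c ρ y i = 0 := by
  have hρ0 : (0 : ℝ) < ρ := by exact_mod_cast hρ
  have h : 1 < tt c ρ y := by
    unfold bx at hy
    rw [Fintype.mem_piFinset] at hy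
    push Not at hy
    obtain ⟨i, hi⟩ := hy
    rw [Finset.mem_Icc] at hi
    by_contra hcon
    have h1 := BumpAux.coord c hρ0 y (not_lt.1 hcon) i
    apply hi
    rw [abs_le] at h1
    constructor
    · have h2 : ((c i - ρ : ℤ) : ℝ) ≤ ((y i : ℤ) : ℝ) := by
        push_cast
        linarith [h1.1]
      exact_mod_cast h2
    · have h2 : ((y i : ℤ) : ℝ) ≤ ((c i + ρ : ℤ) : ℝ) := by
        push_cast
        linarith [h1.2]
      exact_mod_cast h2
  constructor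
  · unfold bump
    rw [BumpAux.max_zero h]
    norm_num
  · intro i
    unfold grad
    rw [BumpAux.max_zero h]
    simp

theorem bump_nonneg (c : Site d) (ρ : ℝ) (y : Site d) : 0 ≤ bump c ρ y := sq_nonneg _

theorem grad_lip (d : ℕ) : ∃ C : ℝ, 0 < C ∧ ∀ (c : Site d) (ρ : ℝ), 1 ≤ ρ →
    ∀ (y : Site d) (i j : Fin d), |grad c ρ (y + ev j) i - grad c ρ y i| ≤ C / ρ ^ 2 := by
  refine ⟨4 * (2 * (2 * d * 1 + 3 * d * 1 ^ 2) + 1), by positivity, ?_⟩
  intro c ρ hρ y i j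
  have hρ0 : 0 < ρ := by linarith
  have hv : ∀ k, |((ev j : Site d) k : ℝ)| ≤ 1 := by
    intro k
    unfold ev
    by_cases hk : k = j
    · subst hk
      simp
    · simp [Pi.single_eq_of_ne hk]
  set m := max 0 (1 - tt c ρ y) with hm
  set m' := max 0 (1 - tt c ρ (y + ev j)) with hm'
  have hm'0 : 0 ≤ m' := le_max_left _ _
  have hm'1 : m' ≤ 1 := BumpAux.max_le_one c ρ (y + ev j)
  have hkey : grad c ρ (y + ev j) i - grad c ρ y i
      = -4 * ((m' - m) * ((y i : ℝ) - c i) + m' * ((ev j : Site d) i : ℝ)) / ρ ^ 2 := by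
    unfold grad
    rw [← hm, ← hm']
    simp only [Pi.add_apply, Int.cast_add]
    ring
  have hd : (0 : ℝ) ≤ d := Nat.cast_nonneg d
  have h1 : |(m' - m) * ((y i : ℝ) - c i)| ≤ 2 * (2 * d * 1 + 3 * d * 1 ^ 2) := by
    by_cases h : tt c ρ y ≤ 1 ∨ tt c ρ (y + ev j) ≤ 1
    · have h2 := BumpAux.diff c hρ y (ev j) 1 zero_le_one hv h
      have h3 := BumpAux.coord' c hρ y (ev j) 1 zero_le_one hv h i
      have h4 : |m' - m| ≤ |tt c ρ (y + ev j) - tt c ρ y| := by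
        have h7 := abs_max_sub_max_le_max 0 (1 - tt c ρ (y + ev j)) 0 (1 - tt c ρ y)
        rw [← hm, ← hm', sub_self, abs_zero, max_eq_right (abs_nonneg _)] at h7
        refine h7.trans (le_of_eq ?_)
        rw [abs_sub_comm]
        congr 1
        ring
      rw [abs_mul]
      have h8 : |m' - m| ≤ (2 * d * 1 + 3 * d * 1 ^ 2) / ρ := h4.trans h2
      have h9 : |(y i : ℝ) - c i| ≤ 2 * ρ := by linarith
      calc |m' - m| * |(y i : ℝ) - c i|
          ≤ ((2 * d * 1 + 3 * d * 1 ^ 2) / ρ) * (2 * ρ) :=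
            mul_le_mul h8 h9 (abs_nonneg _) (by positivity)
        _ = 2 * (2 * d * 1 + 3 * d * 1 ^ 2) := by field_simp
    · push Not at h
      rw [hm, hm', BumpAux.max_zero h.1, BumpAux.max_zero h.2]
      simp only [sub_zero, zero_mul, abs_zero]
      positivity
  have h5 : |m' * ((ev j : Site d) i : ℝ)| ≤ 1 := by
    rw [abs_mul, abs_of_nonneg hm'0]
    calc m' * |((ev j : Site d) i : ℝ)| ≤ 1 * 1 :=
          mul_le_mul hm'1 (hv i) (abs_nonneg _) zero_le_one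
      _ = 1 := one_mul 1
  rw [hkey, abs_div, abs_mul, abs_of_pos (by positivity : (0 : ℝ) < ρ ^ 2)]
  refine div_le_div_of_nonneg_right ?_ (by positivity)
  have h3 : |(-4 : ℝ)| = 4 := by norm_num
  rw [h3]
  have h6 := (abs_add_le ((m' - m) * ((y i : ℝ) - c i)) (m' * ((ev j : Site d) i : ℝ)))
  linarith

theorem bump_low (c : Site d) (ρ n : ℕ) (hρ : 1 ≤ ρ) (h : 2 * d * n ^ 2 ≤ ρ ^ 2) (y : Site d)
    (hy : y ∈ bx c n) : 1 / 4 ≤ bump c ρ y := by
  have hρ0 : (0 : ℝ) < ρ := by exact_mod_cast hρ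
  have h1 : ∑ i, ((y i : ℝ) - c i) ^ 2 ≤ d * (n : ℝ) ^ 2 := by
    have h2 : ∀ i ∈ (Finset.univ : Finset (Fin d)), ((y i : ℝ) - c i) ^ 2 ≤ (n : ℝ) ^ 2 := by
      intro i _
      unfold bx at hy
      rw [Fintype.mem_piFinset] at hy
      have h3 := Finset.mem_Icc.1 (hy i)
      have h4 : ((c i - n : ℤ) : ℝ) ≤ ((y i : ℤ) : ℝ) := by exact_mod_cast h3.1
      have h5 : ((y i : ℤ) : ℝ) ≤ ((c i + n : ℤ) : ℝ) := by exact_mod_cast h3.2
      push_cast at h4 h5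
      rw [← sq_abs]
      refine pow_le_pow_left₀ (abs_nonneg _) ?_ 2
      rw [abs_le]
      constructor <;> linarith
    refine (Finset.sum_le_sum h2).trans (le_of_eq ?_)
    rw [Finset.sum_const, Finset.card_univ, Fintype.card_fin, nsmul_eq_mul]
  have h2 : (2 * d * n ^ 2 : ℝ) ≤ (ρ : ℝ) ^ 2 := by exact_mod_cast h
  have h3 : tt c ρ y ≤ 1 / 2 := by
    unfold tt
    rw [div_le_iff₀ (by positivity)]
    linarith
  unfold bump
  have h4 : (1 : ℝ) / 2 ≤ max 0 (1 - tt c ρ y) := le_max_of_le_right (by linarith)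
  nlinarith

end DE
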