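import Pool.Agent.Helper10.DE.Geo.Defs

/-!
# DE VIII.8  From the matching mismatch to the boundary of `S`

PROOF.  Let `n' = n + K + 2 K L` and `N v` the number of `y ∈ bx c n'` with
`¬ (y - v ∈ S ↔ f⁻¹ y ∈ S)`, `N v ≤ M`.
(1) For `u = v - v'`, `v, v' ∈ D`, the number of `x ∈ bx c (n + 2 K L)` with `¬ (x ∈ S ↔ x + u ∈ S)` is
`≤ N v + N v' ≤ 2 M`: put `y = x + v`, so `y - v = x` and `y - v' = x + v - v' = x + u`;
`y ∈ bx c n'`; if `x ∈ S ↔ x + u ∈ S` fails then one of `y - v ∈ S ↔ f⁻¹ y ∈ S`,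
`y - v' ∈ S ↔ f⁻¹ y ∈ S` fails.
(2) `ev j = u_1 + ... + u_l` with `l ≤ L`, `u_k ∈ D - D` (entries bounded by `2 K`).  For `x ∈ bx c n`
with `¬ (x ∈ S ↔ x + ev j ∈ S)` there is `k` with `¬ (x_k ∈ S ↔ x_k + u_{k+1} ∈ S)`,
`x_k = x + u_1 + ... + u_k ∈ bx c (n + 2 K L)`; translations are injective; so the number is
`≤ l · 2 M`.
-/

noncomputable section

namespace DE

variable {d : ℕ}

private theorem memb {c x : Site d} {m : ℕ} :
    x ∈ bx c m ↔ ∀ i, c i - m ≤ x i ∧ x i ≤ c i + m := by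
  simp only [bx, Fintype.mem_piFinset, Finset.mem_Icc]

private theorem chg_diff (K : ℕ) (D : Finset (Site d)) (hK : BdK D K)
    (f : Equiv.Perm (Site d)) (S : Finset (Site d)) (c : Site d) (n' m M : ℕ)
    (hM : ∀ v ∈ D, ((bx c n').filter fun y => ¬ (y - v ∈ S ↔ f⁻¹ y ∈ S)).card ≤ M)
    (hm : m + K ≤ n') {v v' : Site d} (hv : v ∈ D) (hv' : v' ∈ D) :
    chg S (bx c m) (v - v') ≤ 2 * M := by
  classical
  have h1 : chg S (bx c m) (v - v') ≤
      (((bx c n').filter fun y => ¬ (y - v ∈ S ↔ f⁻¹ y ∈ S)) ∪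
        ((bx c n').filter fun y => ¬ (y - v' ∈ S ↔ f⁻¹ y ∈ S))).card := by
    unfold chg
    refine Finset.card_le_card_of_injOn (fun x => x + v) ?_ ?_
    · intro x hx
      rw [Finset.mem_coe, Finset.mem_filter] at hx
      obtain ⟨hx1, hx2⟩ := hx
      have hy : x + v ∈ bx c n' := by
        rw [memb] at hx1 ⊢
        intro i
        have a1 := hx1 i
        have a2 := abs_le.1 (hK.2 v hv i)
        have a3 : ((m : ℤ) + K) ≤ n' := by exact_mod_cast hm
        simp only [Pi.add_apply]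
        constructor <;> linarith [a1.1, a1.2, a2.1, a2.2]
      rw [Finset.mem_coe, Finset.mem_union, Finset.mem_filter, Finset.mem_filter]
      have e1 : x + v - v = x := by abel
      have e2 : x + v - v' = x + (v - v') := by abel
      simp only [e1, e2, hy, true_and]
      by_contra hcon
      push Not at hcon
      exact hx2 (hcon.1.trans hcon.2.symm)
    · intro x _ y _ hxy
      exact add_right_cancel hxy
  refine h1.trans ((Finset.card_union_le _ _).trans ?_)
  have h2 := hM v hv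
  have h3 := hM v' hv'
  omega

private theorem chg_cons (K : ℕ) (S : Finset (Site d)) (c : Site d) (m : ℕ) (u w : Site d)
    (hu : ∀ i, |u i| ≤ 2 * K) :
    chg S (bx c m) (u + w) ≤ chg S (bx c m) u + chg S (bx c (m + 2 * K)) w := by
  classical
  have h1 : chg S (bx c m) (u + w) ≤
      (((bx c m).filter fun x => ¬ (x ∈ S ↔ x + u ∈ S)) ∪
        ((bx c m).filter fun x => ¬ (x + u ∈ S ↔ x + u + w ∈ S))).card := by
    unfold chg
    refine Finset.card_le_card ?_
    intro x hx
    rw [Finset.mem_filter] at hx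
    obtain ⟨hx1, hx2⟩ := hx
    rw [Finset.mem_union, Finset.mem_filter, Finset.mem_filter]
    simp only [hx1, true_and]
    by_contra hcon
    push Not at hcon
    rw [← add_assoc] at hx2
    exact hx2 (hcon.1.trans hcon.2)
  have h2 : ((bx c m).filter fun x => ¬ (x + u ∈ S ↔ x + u + w ∈ S)).card ≤
      chg S (bx c (m + 2 * K)) w := by
    unfold chg
    refine Finset.card_le_card_of_injOn (fun x => x + u) ?_ ?_
    · intro x hx
      rw [Finset.mem_coe, Finset.mem_filter] at hx
      obtain ⟨hx1, hx2⟩ := hx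
      rw [Finset.mem_coe, Finset.mem_filter]
      refine ⟨?_, hx2⟩
      rw [memb] at hx1 ⊢
      intro i
      have a1 := hx1 i
      have a2 := abs_le.1 (hu i)
      simp only [Pi.add_apply]
      push_cast
      constructor <;> linarith [a1.1, a1.2, a2.1, a2.2]
    · intro x _ y _ hxy
      exact add_right_cancel hxy
  refine h1.trans ((Finset.card_union_le _ _).trans ?_)
  exact Nat.add_le_add le_rfl h2

private theorem chg_list (K : ℕ) (D : Finset (Site d)) (hK : BdK D K)
    (f : Equiv.Perm (Site d)) (S : Finset (Site d)) (c : Site d) (n' M : ℕ)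
    (hM : ∀ v ∈ D, ((bx c n').filter fun y => ¬ (y - v ∈ S ↔ f⁻¹ y ∈ S)).card ≤ M) :
    ∀ (l : List (Site d)) (m : ℕ), (∀ u ∈ l, ∃ v ∈ D, ∃ v' ∈ D, u = v - v') →
      m + K + 2 * K * l.length ≤ n' → chg S (bx c m) l.sum ≤ 2 * M * l.length
  | [], m, _, _ => by
    unfold chg
    simp
  | u :: l, m, hl, hm => by
    obtain ⟨v, hv, v', hv', rfl⟩ := hl u List.mem_cons_self
    rw [List.sum_cons]
    rw [List.length_cons] at hm ⊢
    have e : 2 * K * (l.length + 1) = 2 * K * l.length + 2 * K := by ring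
    have h1 := chg_cons K S c m (v - v') l.sum (by
      intro i
      have a1 := abs_le.1 (hK.2 v hv i)
      have a2 := abs_le.1 (hK.2 v' hv' i)
      rw [Pi.sub_apply, abs_le]
      constructor <;> linarith [a1.1, a1.2, a2.1, a2.2])
    have h2 := chg_diff K D hK f S c n' m M hM (by omega) hv hv'
    have h3 := chg_list K D hK f S c n' M hM l (m + 2 * K)
      (fun u hu => hl u (List.mem_cons_of_mem _ hu)) (by omega)
    have e2 : 2 * M * (l.length + 1) = 2 * M * l.length + 2 * M := by ring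
    omega

theorem chg_le (K L : ℕ) (D : Finset (Site d)) (hL : Gen D L) (hK : BdK D K)
    (f : Equiv.Perm (Site d)) (S : Finset (Site d)) (c : Site d) (n M : ℕ)
    (hM : ∀ v ∈ D, ((bx c (n + K + 2 * K * L)).filter
      fun y => ¬ (y - v ∈ S ↔ f⁻¹ y ∈ S)).card ≤ M) (j : Fin d) :
    chg S (bx c n) (ev j) ≤ 2 * L * M := by
  obtain ⟨l, hlen, hl, hsum⟩ := hL j
  have h1 : 2 * K * l.length ≤ 2 * K * L := Nat.mul_le_mul_left _ hlen
  have h2 := chg_list K D hK f S c (n + K + 2 * K * L) M hM l n hl (by omega)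
  rw [hsum] at h2
  have h3 : 2 * M * l.length ≤ 2 * M * L := Nat.mul_le_mul_left _ hlen
  have e : 2 * M * L = 2 * L * M := by ring
  omega

end DE
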