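import Pool.Agent.Helper10.DE.RC.GrowthOde

/-!
# DE VIII.4  Growth of a set closed under forward (or backward) moves

`Mono σ S D f Q` (Geo/Defs): for `y ∈ Q`, `v ∈ D`: if `σ = true`: `f⁻¹ y ∈ S → y - v ∈ S`; if
`σ = false`: `y - v ∈ S → f⁻¹ y ∈ S`.
PROOF.  Let `K ≥ 1` bound the entries of the elements of `D` (`BdK`).  Let
`G j = |S ∩ bx p (2 K j)|`, `J = n / (2 K)` (natural division).  `G 0 ≥ 1` because `p ∈ S`.
For `j < J` let `S_j = S ∩ bx p (2 K j)`.  Note `bx p (2 K j + K) ⊆ bx p n ⊆ Q`.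
`σ = true`: `Y = f '' S_j` (so `|Y| = G j`).  For `a ∈ S_j`, `y = f a ∈ bx p (2 K j + K) ⊆ Q` (as
`f a - a ∈ D`), so `y - v ∈ S`, and `y - v ∈ bx p (2 K (j + 1))`; i.e. `Y - v ⊆ S_{j+1}` for all
`v ∈ D`.  `bd Y (v - v')` = number of `y ∈ Y` with `y + v - v' ∉ Y` = `|(Y - v') \ (Y - v)|`
`≤ |S_{j+1} \ (Y - v)| = G (j + 1) - G j`.
`σ = false`: `Y = S_j`.  For `b ∈ Y`: `y = b + v ∈ bx p (2 K j + K) ⊆ Q` and `y - v = b ∈ S`, so
`f⁻¹ y ∈ S`, and `f⁻¹ y ∈ bx p (2 K (j + 1))` (`y - f⁻¹ y ∈ D`); so `Y + v ⊆ f '' S_{j+1}`, a set with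
`G (j+1)` elements; `bd Y (v - v') = |(Y + v) \ (Y + v')| ≤ G (j + 1) - G j`.
Now `growth_ode` (constant `c₀`): `G J ≥ (c₀ J)^d`.  If `n ≥ 2 K` then `J ≥ n / (4 K)` and
`|S ∩ bx p n| ≥ G J ≥ (c₀ n / (4 K))^d`.  If `n < 2 K` then `|S ∩ bx p n| ≥ 1 ≥ (n / (2 K))^d`.
Take `c = min ((c₀ / (4 K))^d) ((1 / (2 K))^d)`.  (If `K = 0` the statement is vacuous: `BdK`
contains `1 ≤ K`; choose `c = 1`.)
-/

noncomputable section

namespace DE

variable {d : ℕ}

private theorem gr_mem_bx {c x : Site d} {n : ℕ} :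
    x ∈ bx c n ↔ ∀ i, |x i - c i| ≤ (n : ℤ) := by
  unfold bx
  rw [Fintype.mem_piFinset]
  refine forall_congr' fun i => ?_
  rw [Finset.mem_Icc, abs_le]
  constructor
  · rintro ⟨h1, h2⟩
    constructor <;> linarith
  · rintro ⟨h1, h2⟩
    constructor <;> linarith

private theorem gr_bx_mono {c : Site d} {m n : ℕ} (h : m ≤ n) : bx c m ⊆ bx c n := by
  intro x hx
  rw [gr_mem_bx] at hx ⊢
  intro i
  exact (hx i).trans (by exact_mod_cast h)

private theorem gr_add {c x u : Site d} {m K : ℕ} (hx : x ∈ bx c m) (hu : ∀ i, |u i| ≤ (K : ℤ)) :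
    x + u ∈ bx c (m + K) := by
  rw [gr_mem_bx] at hx ⊢
  intro i
  have h1 : (x + u) i - c i = (x i - c i) + u i := by
    rw [Pi.add_apply]
    ring
  rw [h1]
  push_cast
  exact (abs_add_le _ _).trans (add_le_add (hx i) (hu i))

private theorem gr_sub {c x u : Site d} {m K : ℕ} (hx : x ∈ bx c m) (hu : ∀ i, |u i| ≤ (K : ℤ)) :
    x - u ∈ bx c (m + K) := by
  rw [sub_eq_add_neg]
  refine gr_add hx fun i => ?_
  rw [Pi.neg_apply, abs_neg]
  exact hu i

private theorem gr_bd (Y T : Finset (Site d)) (v v' : Site d) (h : ∀ y ∈ Y, y - v ∈ T)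
    (h' : ∀ y ∈ Y, y - v' ∈ T) : bd Y (v - v') + Y.card ≤ T.card := by
  have i1 : Function.Injective fun y : Site d => y - v' := sub_left_injective
  have i2 : Function.Injective fun y : Site d => y - v := sub_left_injective
  have e1 : bd Y (v - v') =
      ((Y.filter fun x => x + (v - v') ∉ Y).image fun y => y - v').card := by
    rw [Finset.card_image_of_injective _ i1]
    rfl
  have e2 : Y.card = (Y.image fun y => y - v).card := by
    rw [Finset.card_image_of_injective _ i2]
  rw [e1, e2, ← Finset.card_union_of_disjoint]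
  · refine Finset.card_le_card ?_
    intro z hz
    rw [Finset.mem_union, Finset.mem_image, Finset.mem_image] at hz
    rcases hz with ⟨y, hy, rfl⟩ | ⟨y, hy, rfl⟩
    · exact h' y (Finset.mem_filter.1 hy).1
    · exact h y hy
  · rw [Finset.disjoint_left]
    intro z hz hz2
    rw [Finset.mem_image] at hz hz2
    obtain ⟨y, hy, rfl⟩ := hz
    obtain ⟨y2, hy2, he⟩ := hz2
    apply (Finset.mem_filter.1 hy).2
    have h1 : y + (v - v') = y2 := by
      have h2 : y2 - v = y - v' := he
      calc y + (v - v') = (y - v') + v := by abel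
        _ = (y2 - v) + v := by rw [h2]
        _ = y2 := by abel
    rw [h1]
    exact hy2

theorem growth (hd : 2 ≤ d) (L K : ℕ) : ∃ c : ℝ, 0 < c ∧
    ∀ D : Finset (Site d), Gen D L → BdK D K → ∀ (σ : Bool) (f : Equiv.Perm (Site d)), IsD D f →
      ∀ (S Q : Finset (Site d)) (p : Site d), p ∈ S → Mono σ S D f Q →
      ∀ n : ℕ, bx p n ⊆ Q → c * (n : ℝ) ^ d ≤ ((S ∩ bx p n).card : ℝ) := by
  classical
  rcases Nat.eq_zero_or_pos K with hK0 | hKpos
  · subst hK0
    refine ⟨1, one_pos, ?_⟩
    intro D _ hK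
    exact absurd hK.1 (by norm_num)
  obtain ⟨c₀, hc₀, hode⟩ := growth_ode hd L
  have hKR : (0 : ℝ) < K := by exact_mod_cast hKpos
  refine ⟨min ((c₀ / (4 * K)) ^ d) ((1 / (2 * K)) ^ d), ?_, ?_⟩
  · apply lt_min <;> positivity
  intro D hL hK σ f hf S Q p hp hM n hn
  have hpn : ∀ m : ℕ, p ∈ S ∩ bx p m := by
    intro m
    rw [Finset.mem_inter, gr_mem_bx]
    refine ⟨hp, fun i => ?_⟩
    rw [sub_self, abs_zero]
    exact Int.natCast_nonneg m
  have hD : ∀ v ∈ D, ∀ i, |v i| ≤ (K : ℤ) := hK.2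
  by_cases hsmall : n < 2 * K
  · have h1 : (1 : ℝ) ≤ ((S ∩ bx p n).card : ℝ) := by
      exact_mod_cast Finset.card_pos.2 ⟨p, hpn n⟩
    refine le_trans ?_ h1
    have h2 : (n : ℝ) ≤ 2 * K := by exact_mod_cast hsmall.le
    calc min ((c₀ / (4 * K)) ^ d) ((1 / (2 * K)) ^ d) * (n : ℝ) ^ d
        ≤ (1 / (2 * K)) ^ d * (n : ℝ) ^ d := by
          apply mul_le_mul_of_nonneg_right (min_le_right _ _)
          positivity
      _ = (n / (2 * K)) ^ d := by
          rw [← mul_pow]
          congr 1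
          ring
      _ ≤ 1 := by
          apply pow_le_one₀
          · positivity
          · rw [div_le_one (by positivity)]
            exact h2
  · push Not at hsmall
    set J : ℕ := n / (2 * K) with hJ
    have hJ1 : 2 * K * J ≤ n := Nat.mul_div_le n (2 * K)
    have hJ2 : 1 ≤ J := (Nat.one_le_div_iff (by positivity)).2 hsmall
    have hJ3 : n < 4 * K * J := by
      have h1 : n < 2 * K * (J + 1) := Nat.lt_mul_div_succ n (by positivity)
      have h2 : 2 * K * 1 ≤ 2 * K * J := Nat.mul_le_mul_left _ hJ2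
      nlinarith
    have key := hode D hL (fun j => (S ∩ bx p (2 * K * j)).card) J
      (Finset.card_pos.2 ⟨p, hpn _⟩) ?_ J le_rfl
    · have h1 : ((S ∩ bx p (2 * K * J)).card : ℝ) ≤ ((S ∩ bx p n).card : ℝ) := by
        exact_mod_cast Finset.card_le_card
          (Finset.inter_subset_inter_left (gr_bx_mono hJ1))
      refine le_trans ?_ (key.trans h1)
      have h2 : (n : ℝ) ≤ 4 * K * J := by exact_mod_cast hJ3.le
      calc min ((c₀ / (4 * K)) ^ d) ((1 / (2 * K)) ^ d) * (n : ℝ) ^ d
          ≤ (c₀ / (4 * K)) ^ d * (n : ℝ) ^ d := by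
            apply mul_le_mul_of_nonneg_right (min_le_left _ _)
            positivity
        _ = (c₀ * (n / (4 * K))) ^ d := by
            rw [← mul_pow]
            congr 1
            ring
        _ ≤ (c₀ * J) ^ d := by
            apply pow_le_pow_left₀ (by positivity)
            apply mul_le_mul_of_nonneg_left _ hc₀.le
            rw [div_le_iff₀ (by positivity)]
            linarith
    · intro j hj
      have hj1 : 2 * K * (j + 1) ≤ n :=
        (Nat.mul_le_mul_left _ hj).trans hJ1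
      have hj2 : 2 * K * j + K ≤ n := by
        have : 2 * K * (j + 1) = 2 * K * j + K + K := by ring
        omega
      have hj3 : 2 * K * (j + 1) = 2 * K * j + K + K := by ring
      have hbQ : bx p (2 * K * j + K) ⊆ Q := (gr_bx_mono hj2).trans hn
      cases σ with
      | true =>
        refine ⟨(S ∩ bx p (2 * K * j)).image f, Finset.card_image_of_injective _ f.injective, ?_⟩
        have hmem : ∀ w ∈ D, ∀ y ∈ (S ∩ bx p (2 * K * j)).image f,
            y - w ∈ S ∩ bx p (2 * K * (j + 1)) := by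
          intro w hw y hy
          rw [Finset.mem_image] at hy
          obtain ⟨a, ha, rfl⟩ := hy
          rw [Finset.mem_inter] at ha
          have h1 : f a ∈ bx p (2 * K * j + K) := by
            have h2 := gr_add ha.2 (hD _ (hf a))
            rwa [add_sub_cancel] at h2
          rw [Finset.mem_inter]
          constructor
          · refine (hM (f a) (hbQ h1) w hw).1 rfl ?_
            rw [Equiv.Perm.inv_def, Equiv.symm_apply_apply]
            exact ha.1
          · rw [hj3]
            exact gr_sub h1 (hD w hw)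
        intro v hv v' hv'
        have h3 := gr_bd ((S ∩ bx p (2 * K * j)).image f) (S ∩ bx p (2 * K * (j + 1))) v v'
          (hmem v hv) (hmem v' hv')
        rwa [Finset.card_image_of_injective _ f.injective] at h3
      | false =>
        refine ⟨S ∩ bx p (2 * K * j), rfl, ?_⟩
        have hmem : ∀ w ∈ D, ∀ y ∈ S ∩ bx p (2 * K * j),
            y - (-w) ∈ (S ∩ bx p (2 * K * (j + 1))).image f := by
          intro w hw b hb
          rw [sub_neg_eq_add]
          rw [Finset.mem_inter] at hb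
          have h1 : b + w ∈ bx p (2 * K * j + K) := gr_add hb.2 (hD w hw)
          have h2 : f⁻¹ (b + w) ∈ S := by
            refine (hM (b + w) (hbQ h1) w hw).2 rfl ?_
            rw [add_sub_cancel_right]
            exact hb.1
          have h4 : f (f⁻¹ (b + w)) = b + w := by
            rw [Equiv.Perm.inv_def, Equiv.apply_symm_apply]
          rw [Finset.mem_image]
          refine ⟨f⁻¹ (b + w), ?_, h4⟩
          rw [Finset.mem_inter]
          refine ⟨h2, ?_⟩
          rw [hj3]
          have h5 := hf (f⁻¹ (b + w))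
          rw [h4] at h5
          have h6 := gr_sub h1 (hD _ h5)
          rwa [sub_sub_cancel] at h6
        intro v hv v' hv'
        have h3 := gr_bd (S ∩ bx p (2 * K * j)) ((S ∩ bx p (2 * K * (j + 1))).image f)
          (-v') (-v) (hmem v' hv') (hmem v hv)
        rw [Finset.card_image_of_injective _ f.injective] at h3
        have h7 : -v' - -v = v - v' := by abel
        rwa [h7] at h3

end DE
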