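import Pool.Agent.Helper10.DE.RC.Isoper
import Pool.Agent.Helper10.DE.RC.BdList

/-!
# DE VIII.3  The discrete differential inequality

PROOF.  Let `C` be from `isoper`, `i : Fin d`.  For `j < J` let `Y` be the set of the hypothesis,
`Δ = G (j + 1) - G j` (as a natural number; `G j ≤ G (j + 1)` because `bd ≥ 0` and `D` is nonempty:
`Gen D L` and `d ≥ 2 > 0` give some `v ∈ D`, since `ev i ≠ 0` is not the empty sum).
For every `v, v' ∈ D`: `bd Y (v - v') ≤ Δ`, so by `Gen` and `bd_list`: `bd Y (ev i) ≤ L Δ`, and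
`isoper` gives `G(j)^(d-1) ≤ C (d L Δ)^d`.   (1)
(In particular `L ≥ 1`, `Δ ≥ 1` as `G j ≥ 1`.)
Let `A = C d L ≥ 1` (so `C (d L)^d ≤ A^d`), `c = 1 / (A d 2^(d-1))`.  Claim `(c j)^d ≤ G j`, by
induction on `j`.  `j = 0`: clear (`d ≥ 1`).  `j = 1`: `c ≤ 1 ≤ G 0 ≤ G 1`.  Step `j → j + 1`,
`j ≥ 1`: from (1), `(A Δ)^d ≥ G(j)^(d-1) ≥ ((c j)^(d-1))^d`, so `A Δ ≥ (c j)^(d-1)`
(`pow_le_pow_left` / `le_of_pow_le_pow_left`), and
`(c (j+1))^d - (c j)^d ≤ c^d d (j+1)^(d-1) ≤ c^d d 2^(d-1) j^(d-1) = c^(d-1) j^(d-1) / A ≤ Δ`.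
-/

noncomputable section

namespace DE

variable {d : ℕ}

theorem GrowthOde.h85_pow_succ_le (m : ℕ) {x : ℝ} (hx : 0 ≤ x) :
    (x + 1) ^ (m + 1) ≤ x ^ (m + 1) + (m + 1) * (x + 1) ^ m := by
  induction m with
  | zero => simp
  | succ m ih =>
    have h1 : (x + 1) * (x + 1) ^ (m + 1) ≤ (x + 1) * (x ^ (m + 1) + (m + 1) * (x + 1) ^ m) :=
      mul_le_mul_of_nonneg_left ih (by linarith)
    have h2 : x ^ (m + 1) ≤ (x + 1) ^ (m + 1) := pow_le_pow_left₀ hx (by linarith) _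
    have e1 : (x + 1) ^ (m + 1 + 1) = (x + 1) * (x + 1) ^ (m + 1) := by ring
    have e2 : (x + 1) * (x ^ (m + 1) + (m + 1) * (x + 1) ^ m) =
        x ^ (m + 1 + 1) + x ^ (m + 1) + (m + 1) * (x + 1) ^ (m + 1) := by ring
    rw [e1]
    push_cast
    linarith

theorem GrowthOde.h85_step (hd : 2 ≤ d) {C L : ℕ} {D : Finset (Site d)} (hD : Gen D L)
    (hC : ∀ Y : Finset (Site d), Y.card ^ (d - 1) ≤ C * (∑ i, bd Y (ev i)) ^ d)
    {a b : ℕ} (hY : ∃ Y : Finset (Site d), Y.card = a ∧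
        ∀ v ∈ D, ∀ v' ∈ D, bd Y (v - v') + a ≤ b) :
    a ≤ b ∧ a ^ (d - 1) ≤ C * (d * (L * (b - a))) ^ d := by
  obtain ⟨Y, hYc, hYb⟩ := hY
  have hne : ∃ v, v ∈ D := by
    obtain ⟨l, hl, hu, hs⟩ := hD ⟨0, by omega⟩
    cases l with
    | nil =>
      exfalso
      have h1 := congrFun hs ⟨0, by omega⟩
      simp [ev] at h1
    | cons u l =>
      obtain ⟨v, hv, -⟩ := hu u (by simp)
      exact ⟨v, hv⟩
  obtain ⟨v0, hv0⟩ := hne
  have hab : a ≤ b := by
    have := hYb v0 hv0 v0 hv0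
    omega
  refine ⟨hab, ?_⟩
  have hi : ∀ i : Fin d, bd Y (ev i) ≤ L * (b - a) := by
    intro i
    obtain ⟨l, hl, hu, hs⟩ := hD i
    rw [← hs]
    refine (bd_list Y (b - a) l ?_).trans (Nat.mul_le_mul_right _ hl)
    intro u hul
    obtain ⟨v, hv, v', hv', rfl⟩ := hu u hul
    have := hYb v hv v' hv'
    omega
  have hsum : ∑ i, bd Y (ev i) ≤ d * (L * (b - a)) := by
    calc ∑ i, bd Y (ev i) ≤ ∑ _i : Fin d, L * (b - a) := Finset.sum_le_sum fun i _ => hi i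
      _ = d * (L * (b - a)) := by simp
  rw [← hYc] at *
  exact (hC Y).trans (Nat.mul_le_mul_left _ (Nat.pow_le_pow_left hsum _))

theorem growth_ode (hd : 2 ≤ d) (L : ℕ) : ∃ c : ℝ, 0 < c ∧
    ∀ D : Finset (Site d), Gen D L → ∀ (G : ℕ → ℕ) (J : ℕ), 1 ≤ G 0 →
      (∀ j < J, ∃ Y : Finset (Site d), Y.card = G j ∧
        ∀ v ∈ D, ∀ v' ∈ D, bd Y (v - v') + G j ≤ G (j + 1)) →
      ∀ j ≤ J, (c * j) ^ d ≤ (G j : ℝ) := by
  obtain ⟨C, hC1, hC⟩ := isoper hd
  obtain ⟨m, rfl⟩ : ∃ m, d = m + 1 := ⟨d - 1, by omega⟩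
  set A : ℝ := C * (m + 1) * (L + 1) with hA
  have hC1' : (1 : ℝ) ≤ C := by exact_mod_cast hC1
  have hL0 : (0 : ℝ) ≤ L := Nat.cast_nonneg L
  have hm0 : (0 : ℝ) ≤ m := Nat.cast_nonneg m
  have hA1 : 1 ≤ A := by
    rw [hA]
    have h1 : (1 : ℝ) ≤ C * (m + 1) := by nlinarith
    nlinarith
  have hden : 1 ≤ A * (m + 1) * 2 ^ m := by
    have h1 : (1 : ℝ) ≤ 2 ^ m := one_le_pow₀ (by norm_num)
    have h2 : (1 : ℝ) ≤ A * (m + 1) := by nlinarith
    nlinarith
  have hc0 : 0 < 1 / (A * (m + 1) * 2 ^ m) := by positivity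
  have hc1 : 1 / (A * (m + 1) * 2 ^ m) ≤ 1 := by
    rw [div_le_one (by linarith)]
    exact hden
  have hcA : 1 / (A * (m + 1) * 2 ^ m) * ((m + 1) * 2 ^ m) = 1 / A := by
    have hA0 : A ≠ 0 := by linarith
    have h2 : (2 : ℝ) ^ m ≠ 0 := by positivity
    have h3 : (m + 1 : ℝ) ≠ 0 := by positivity
    field_simp
  refine ⟨1 / (A * (m + 1) * 2 ^ m), hc0, ?_⟩
  set c : ℝ := 1 / (A * (m + 1) * 2 ^ m) with hc
  intro D hD G J hG0 hY
  have hstep : ∀ j < J, G j ≤ G (j + 1) ∧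
      G j ^ m ≤ C * ((m + 1) * (L * (G (j + 1) - G j))) ^ (m + 1) := fun j hj =>
    GrowthOde.h85_step hd hD hC (hY j hj)
  intro j
  induction j with
  | zero =>
    intro _
    simp
  | succ j ih =>
    intro hj
    have hj' : j < J := by omega
    obtain ⟨hmono, hiso⟩ := hstep j hj'
    have ihj := ih (by omega)
    rcases Nat.eq_zero_or_pos j with h0 | hpos
    · subst h0
      have h1 : (c * ((0 + 1 : ℕ) : ℝ)) ^ (m + 1) ≤ 1 := by
        apply pow_le_one₀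
        · positivity
        · simpa using hc1
      have h2 : (1 : ℝ) ≤ G (0 + 1) := by
        exact_mod_cast hG0.trans hmono
      linarith
    · -- the increment
      set Δ : ℕ := G (j + 1) - G j with hΔ
      have hG : (G (j + 1) : ℝ) = G j + Δ := by
        rw [hΔ, Nat.cast_sub hmono]
        ring
      have hΔ0 : (0 : ℝ) ≤ Δ := Nat.cast_nonneg _
      have hj0 : (0 : ℝ) ≤ j := Nat.cast_nonneg _
      have hj1 : (1 : ℝ) ≤ j := by exact_mod_cast hpos
      have h1 : ((G j : ℝ)) ^ m ≤ (A * Δ) ^ (m + 1) := by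
        have h2 : ((G j : ℝ)) ^ m ≤ C * ((m + 1) * (L * Δ)) ^ (m + 1) := by
          exact_mod_cast hiso
        have h3 : (C : ℝ) ≤ C ^ (m + 1) := le_self_pow₀ hC1' (by omega)
        have h4 : ((m + 1) * (L * (Δ : ℝ))) ^ (m + 1) ≤ ((m + 1) * ((L + 1) * Δ)) ^ (m + 1) := by
          apply pow_le_pow_left₀
          · positivity
          · have : (L : ℝ) * Δ ≤ (L + 1) * Δ := by nlinarith
            exact mul_le_mul_of_nonneg_left this (by positivity)
        calc ((G j : ℝ)) ^ m ≤ C * ((m + 1) * (L * Δ)) ^ (m + 1) := h2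
          _ ≤ C ^ (m + 1) * ((m + 1) * ((L + 1) * Δ)) ^ (m + 1) :=
            mul_le_mul h3 h4 (by positivity) (by positivity)
          _ = (A * Δ) ^ (m + 1) := by
            rw [← mul_pow, hA]
            ring
      have h2 : ((c * j) ^ m) ^ (m + 1) ≤ (A * Δ) ^ (m + 1) := by
        refine le_trans ?_ h1
        rw [← pow_mul, mul_comm m (m + 1), pow_mul]
        exact pow_le_pow_left₀ (by positivity) ihj m
      have h3 : (c * j) ^ m ≤ A * Δ :=
        le_of_pow_le_pow_left₀ (by omega) (by positivity) h2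
      have h4 := GrowthOde.h85_pow_succ_le m hj0
      have h5 : ((j : ℝ) + 1) ^ m ≤ 2 ^ m * j ^ m := by
        rw [← mul_pow]
        exact pow_le_pow_left₀ (by positivity) (by linarith) m
      have h6 : c ^ (m + 1) * ((m + 1) * ((j : ℝ) + 1) ^ m) ≤ Δ := by
        calc c ^ (m + 1) * ((m + 1) * ((j : ℝ) + 1) ^ m)
            ≤ c ^ (m + 1) * ((m + 1) * (2 ^ m * j ^ m)) := by
              apply mul_le_mul_of_nonneg_left _ (by positivity)
              exact mul_le_mul_of_nonneg_left h5 (by positivity)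
          _ = (c * j) ^ m * (c * ((m + 1) * 2 ^ m)) := by
              rw [mul_pow]
              ring
          _ = (c * j) ^ m * (1 / A) := by rw [hcA]
          _ ≤ (A * Δ) * (1 / A) := mul_le_mul_of_nonneg_right h3 (by positivity)
          _ = Δ := by
              have hA0 : A ≠ 0 := by linarith
              field_simp
      have h7 : (c * ((j + 1 : ℕ) : ℝ)) ^ (m + 1) ≤ (c * j) ^ (m + 1) + Δ := by
        calc (c * ((j + 1 : ℕ) : ℝ)) ^ (m + 1) = c ^ (m + 1) * ((j : ℝ) + 1) ^ (m + 1) := by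
              rw [mul_pow]
              push_cast
              ring
          _ ≤ c ^ (m + 1) * ((j : ℝ) ^ (m + 1) + (m + 1) * ((j : ℝ) + 1) ^ m) :=
              mul_le_mul_of_nonneg_left h4 (by positivity)
          _ = (c * j) ^ (m + 1) + c ^ (m + 1) * ((m + 1) * ((j : ℝ) + 1) ^ m) := by
              rw [mul_pow]
              ring
          _ ≤ (c * j) ^ (m + 1) + Δ := by linarith
      rw [hG]
      linarith

end DE
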