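import Pool.Agent.Helper10.DE.Geo.Defs

/-!
# DE VIII.1  Isoperimetric inequality in Z^d

PROOF (choose one).
(A) With Mathlib's grid-lines lemma `MeasureTheory.lintegral_prod_lintegral_pow_le`
(Mathlib/Analysis/FunctionalSpaces/SobolevInequality.lean) for the counting measures on `ℤ`
(`μ i = Measure.count`), exponent `p = d / (d - 1)`, applied to
`f x = #{i | x ∈ Y ∧ x + ev i ∉ Y}`: for `x ∈ Y` and every `i` the line of `x` in direction `i`
contains a last point of `Y`, so `∑ over the line of f ≥ 1`; hence the left side of the grid-lines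
lemma is `≥ |Y|`, the right side is `(∑ i, bd Y (ev i)) ^ (d/(d-1))`.  This gives `C = 1`.
(B) By cubes, from the Poincare inequality `rel_iso` below (module RelIso, which you may import):
for a cube `Q` with `l ^ d` points: `|Y ∩ Q| |Q \ Y| ≤ C₁ l^(d+1) per_Q(Y)`.  Choose `l` with
`2 |Y| ≤ l ^ d ≤ 2 ^ (d + 1) |Y|`, tile `Z^d` by cubes with `l ^ d` points: `|Q \ Y| ≥ l ^ d / 2`, so
`|Y ∩ Q| ≤ 2 C₁ l per_Q(Y)`; sum over the tiles.
(C) Induction on `d` / Loomis-Whitney: `|Y|^(d-1) ≤ ∏ i |π_i Y|` and `|π_i Y| ≤ bd Y (ev i)`.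
-/

noncomputable section

namespace DE

variable {d : ℕ}

/-- the number of directions in which the point `x` of `Y` has its neighbour outside `Y` -/
private def isoF (Y : Finset (Site d)) (x : Site d) : ENNReal :=
  ∑ i : Fin d, (Y.filter fun x => x + ev i ∉ Y : Set (Site d)).indicator 1 x

private theorem isoF_tsum (Y : Finset (Site d)) :
    ∑' x, isoF Y x = ((∑ i, bd Y (ev i) : ℕ) : ENNReal) := by
  unfold isoF
  rw [Summable.tsum_finsetSum (fun i _ => ENNReal.summable)]
  push_cast
  refine Finset.sum_congr rfl fun i _ => ?_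
  rw [tsum_eq_sum (s := Y.filter fun x => x + ev i ∉ Y)
    (fun x hx => Set.indicator_of_notMem (by simpa using hx) _)]
  unfold bd
  rw [Finset.card_eq_sum_ones, Nat.cast_sum]
  refine Finset.sum_congr rfl fun x hx => ?_
  rw [Set.indicator_of_mem (by simpa using hx)]
  simp

/-- every line through a point of `Y` leaves `Y` -/
private theorem iso_line (Y : Finset (Site d)) {x : Site d} (hx : x ∈ Y) (i : Fin d) :
    ∃ t : ℤ, Function.update x i t ∈ Y ∧ Function.update x i t + ev i ∉ Y := by
  classical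
  have hne : (Y.image fun y => y i).Nonempty := ⟨x i, Finset.mem_image.2 ⟨x, hx, rfl⟩⟩
  let T : Finset ℤ := (Y.image fun y => y i).filter fun t => Function.update x i t ∈ Y
  have hT : T.Nonempty := ⟨x i, by
    simp only [T, Finset.mem_filter, Finset.mem_image, Function.update_eq_self]
    exact ⟨⟨x, hx, rfl⟩, hx⟩⟩
  refine ⟨T.max' hT, ?_, ?_⟩
  · exact (Finset.mem_filter.1 (T.max'_mem hT)).2
  · intro h
    have e : Function.update x i (T.max' hT) + ev i = Function.update x i (T.max' hT + 1) := by
      funext j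
      unfold ev
      rcases eq_or_ne j i with rfl | hj
      · simp
      · simp [hj]
    rw [e] at h
    have hm : T.max' hT + 1 ∈ T := by
      simp only [T, Finset.mem_filter, Finset.mem_image]
      exact ⟨⟨_, h, Function.update_self _ _ _⟩, h⟩
    have := T.le_max' _ hm
    linarith

theorem isoper (hd : 2 ≤ d) : ∃ C : ℕ, 1 ≤ C ∧ ∀ Y : Finset (Site d),
    Y.card ^ (d - 1) ≤ C * (∑ i, bd Y (ev i)) ^ d := by
  classical
  refine ⟨1, le_rfl, fun Y => ?_⟩
  have hd1 : (1 : ℝ) < d := by exact_mod_cast hd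
  have hconj : Real.HolderConjugate (Fintype.card (Fin d) : ℝ) ((d : ℝ) / (d - 1)) := by
    rw [Fintype.card_fin]
    exact Real.HolderConjugate.conjExponent hd1
  have key := MeasureTheory.lintegral_prod_lintegral_pow_le
    (fun _ : Fin d => (MeasureTheory.Measure.count : MeasureTheory.Measure ℤ)) hconj
    (f := isoF Y) (measurable_of_countable _)
  have hsing : ∀ x : Site d, (MeasureTheory.Measure.pi
      (fun _ : Fin d => (MeasureTheory.Measure.count : MeasureTheory.Measure ℤ))) {x} = 1 := by
    intro x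
    rw [MeasureTheory.Measure.pi_singleton]
    simp
  rw [MeasureTheory.lintegral_countable', MeasureTheory.lintegral_countable'] at key
  simp only [hsing, mul_one] at key
  rw [isoF_tsum] at key
  have h1 : (Y.card : ENNReal) ≤ ∑' x : Site d, ∏ i : Fin d,
      (∫⁻ xi, isoF Y (Function.update x i xi) ∂(MeasureTheory.Measure.count :
        MeasureTheory.Measure ℤ)) ^ ((1 : ℝ) / ((Fintype.card (Fin d) : ℝ) - 1)) := by
    refine le_trans ?_ (ENNReal.sum_le_tsum Y)
    rw [Finset.card_eq_sum_ones, Nat.cast_sum]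
    refine Finset.sum_le_sum fun x hx => ?_
    rw [Nat.cast_one]
    refine Finset.one_le_prod' fun i _ => ?_
    refine ENNReal.one_le_rpow ?_ ?_
    · obtain ⟨t, ht1, ht2⟩ := iso_line Y hx i
      rw [MeasureTheory.lintegral_count]
      refine le_trans ?_ (ENNReal.le_tsum t)
      unfold isoF
      refine le_trans ?_ (Finset.single_le_sum (f := fun j : Fin d =>
        (Y.filter fun x => x + ev j ∉ Y : Set (Site d)).indicator (1 : Site d → ENNReal)
          (Function.update x i t)) (fun j _ => zero_le) (Finset.mem_univ i))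
      rw [Set.indicator_of_mem (by simpa using ⟨ht1, ht2⟩)]
      simp
    · rw [Fintype.card_fin]
      have : (0 : ℝ) < (d : ℝ) - 1 := by linarith
      positivity
  have h2 := h1.trans key
  have h3 : (Y.card : ENNReal) ^ (d - 1) ≤ ((∑ i, bd Y (ev i) : ℕ) : ENNReal) ^ d := by
    calc (Y.card : ENNReal) ^ (d - 1)
        ≤ (((∑ i, bd Y (ev i) : ℕ) : ENNReal) ^ ((d : ℝ) / (d - 1))) ^ (d - 1) :=
          pow_le_pow_left' h2 _
      _ = ((∑ i, bd Y (ev i) : ℕ) : ENNReal) ^ d := by
          rw [← ENNReal.rpow_natCast (_ ^ ((d : ℝ) / (d - 1))), ← ENNReal.rpow_mul,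
            ← ENNReal.rpow_natCast]
          congr 1
          rw [Nat.cast_sub (by omega), Nat.cast_one]
          have : (d : ℝ) - 1 ≠ 0 := by linarith
          field_simp
  rw [one_mul]
  exact_mod_cast h3

end DE
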