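import Pool.Agent.Helper10.DE.RC.Bump

/-!
# DE VIII.7  Smoothing the main term over `m`-cubes

`mainA S c ρ s f₁ f₂ = ∑_{a ∈ S ∩ bx c ρ} G(a)·h(a)`, `G = grad c ρ`,
`h(a) = 2 s - (f₁ a - a) - (f₂ a - a)` (so `|h(a) i| ≤ 4 K`), `defect f₁ f₂ s m x = -∑_{a ∈ cube x m} h(a)`.

`mainA_triv`: `|G(a) i| ≤ 4/ρ`, `|bx c ρ| ≤ (3ρ)^d`: `|mainA| ≤ d (4/ρ) 4K 3^d ρ^d`.

`mainA_le`: Let `W(a) i = 1_S(a) G(a) i` (zero off `bx c ρ`), so `mainA = ∑_a W(a)·h(a)` (finite).
For every `t ∈ [0,m)^d`: `|∑_a W(a)·h(a) - ∑_a W(a - t)·h(a)| ≤ 4K ∑_i ∑_a |W(a) i - W(a - t) i|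
 ≤ 4K ∑_i ∑_j t_j ∑_a |W(a + ev j) i - W(a) i|` (telescoping along a lattice path, each step is a
translate), and `∑_a |W(a + ev j) i - W(a) i| ≤ (4/ρ) chg S (bx c (ρ+1)) (ev j) + (C₀/ρ²)(2ρ+3)^d`:
the summand vanishes unless `a` or `a + ev j` is in `bx c ρ`, so `a ∈ bx c (ρ+1)`; if exactly one of
`a, a + ev j` is in `S` it is `≤ 4/ρ` (`grad_le`), if both, `≤ C₀/ρ²` (`grad_lip`), if none, `0`.
Average over `t ∈ [0,m)^d`: `m^(-d) ∑_t ∑_a W(a - t)·h(a) = m^(-d) ∑_x W(x)·∑_{a ∈ cube x m} h(a)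
 = - m^(-d) ∑_{x ∈ bx c ρ} W(x)·defect(x)`; `|W(x)·defect(x)| ≤ d (4/ρ) ‖defect(x)‖` with
`‖defect(x)‖ ≤ ε m^d` unless `x` is counted in the filter, where it is `≤ 4 K m^d`.  So this part is
`≤ (4d/ρ)(ε (3ρ)^d + 4K #{x ∈ bx c ρ | bad})`.  (`ρ^d/ρ² = ρ^(d-2)`, as `d ≥ 2`.)
-/

noncomputable section

namespace DE

variable {d : ℕ}

namespace MainAux

/-- Total variation in the direction `t`. -/
def tv (g : Site d → ℝ) (t : Site d) : ℝ := ∑' a, |g (a + t) - g a|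

theorem summ_shift {g : Site d → ℝ} (hg : Summable g) (t : Site d) :
    Summable fun a => g (a + t) :=
  (Equiv.addRight t).summable_iff.2 hg

theorem summ_tv {g : Site d → ℝ} (hg : Summable g) (t : Site d) :
    Summable fun a => |g (a + t) - g a| :=
  ((summ_shift hg t).sub hg).abs

theorem tv_nonneg (g : Site d → ℝ) (t : Site d) : 0 ≤ tv g t :=
  tsum_nonneg fun _ => abs_nonneg _

theorem tv_zero (g : Site d → ℝ) : tv g 0 = 0 := by
  unfold tv
  simp

theorem tv_add {g : Site d → ℝ} (hg : Summable g) (t u : Site d) :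
    tv g (t + u) ≤ tv g t + tv g u := by
  have h1 : tv g u = ∑' a, |g (a + t + u) - g (a + t)| := by
    unfold tv
    exact ((Equiv.addRight t).tsum_eq (fun a => |g (a + u) - g a|)).symm
  have h2 : Summable fun a => |g (a + t + u) - g (a + t)| :=
    summ_shift (g := fun a => |g (a + u) - g a|) (summ_tv hg u) t
  rw [h1]
  unfold tv
  rw [← (summ_tv hg t).tsum_add h2]
  refine (summ_tv hg (t + u)).tsum_le_tsum (fun a => ?_) ((summ_tv hg t).add h2)
  rw [← add_assoc]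
  have h3 : g (a + t + u) - g a = (g (a + t) - g a) + (g (a + t + u) - g (a + t)) := by ring
  rw [h3]
  exact abs_add_le _ _

theorem tv_nsmul {g : Site d → ℝ} (hg : Summable g) (t : Site d) (n : ℕ) :
    tv g (n • t) ≤ n * tv g t := by
  induction n with
  | zero => simp [tv_zero]
  | succ n ih =>
    rw [succ_nsmul]
    refine (tv_add hg _ _).trans ?_
    push_cast
    linarith

theorem tv_sum {g : Site d → ℝ} (hg : Summable g) {α : Type*} (s : Finset α) (w : α → Site d) :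
    tv g (∑ j ∈ s, w j) ≤ ∑ j ∈ s, tv g (w j) := by
  classical
  induction s using Finset.induction_on with
  | empty => simp [tv_zero]
  | insert k s hk ih =>
    rw [Finset.sum_insert hk, Finset.sum_insert hk]
    exact (tv_add hg _ _).trans (by linarith)

theorem tv_cube {g : Site d → ℝ} (hg : Summable g) {m : ℕ} {t : Site d}
    (ht : t ∈ cube (0 : Site d) m) : tv g t ≤ m * ∑ j, tv g (ev j) := by
  unfold cube at ht
  rw [Fintype.mem_piFinset] at ht
  have h1 : ∀ j, 0 ≤ t j ∧ t j < m := by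
    intro j
    have := ht j
    rw [Finset.mem_Ico] at this
    simpa using this
  have h2 : t = ∑ j, (t j).toNat • (ev j : Site d) := by
    funext i
    rw [Finset.sum_apply, Finset.sum_eq_single i]
    · rw [Pi.smul_apply]
      unfold ev
      rw [Pi.single_eq_same, nsmul_eq_mul, mul_one]
      have := (h1 i).1
      simp [Int.toNat_of_nonneg this]
    · intro j _ hj
      rw [Pi.smul_apply]
      unfold ev
      rw [Pi.single_eq_of_ne (Ne.symm hj), smul_zero]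
    · intro h
      exact absurd (Finset.mem_univ _) h
  have h3 := tv_sum hg Finset.univ (fun j => (t j).toNat • (ev j : Site d))
  rw [← h2] at h3
  refine h3.trans ?_
  rw [Finset.mul_sum]
  refine Finset.sum_le_sum fun j _ => (tv_nsmul hg _ _).trans ?_
  refine mul_le_mul_of_nonneg_right ?_ (tv_nonneg _ _)
  have h4 := (h1 j).2
  have h5 : (t j).toNat ≤ m := by omega
  exact_mod_cast h5

theorem card_cube (x : Site d) (m : ℕ) : (cube x m).card = m ^ d := by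
  unfold cube
  rw [Fintype.card_piFinset]
  simp

theorem card_bx (c : Site d) (n : ℕ) : (bx c n).card = (2 * n + 1) ^ d := by
  unfold bx
  rw [Fintype.card_piFinset]
  have : ∀ i : Fin d, (Finset.Icc (c i - (n : ℤ)) (c i + n)).card = 2 * n + 1 := by
    intro i
    rw [Int.card_Icc]
    omega
  simp [this]

theorem sum_cube (x : Site d) (m : ℕ) (h : Site d → ℝ) :
    ∑ t ∈ cube (0 : Site d) m, h (x + t) = ∑ a ∈ cube x m, h a := by
  refine Finset.sum_nbij' (fun t => x + t) (fun a => a - x) ?_ ?_ ?_ ?_ ?_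
  · intro t ht
    simp only [cube, Fintype.mem_piFinset, Finset.mem_Ico, Pi.zero_apply, Pi.add_apply] at ht ⊢
    intro i
    have := ht i
    omega
  · intro a ha
    simp only [cube, Fintype.mem_piFinset, Finset.mem_Ico, Pi.zero_apply, Pi.sub_apply] at ha ⊢
    intro i
    have := ha i
    omega
  · intro t _
    simp
  · intro a _
    simp
  · intro t _
    rfl

theorem diff_le (W : Site d → ℝ) (h : Site d → ℝ) (H : ℝ) (hH : ∀ a, |h a| ≤ H)
    (B : Finset (Site d)) (hB : ∀ a ∉ B, W a = 0) (t : Site d) :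
    |∑ a ∈ B, W a * h a - ∑ x ∈ B, W x * h (x + t)| ≤ H * tv W t := by
  have hW : Summable W := summable_of_ne_finset_zero (s := B) hB
  have h1 : ∑ a ∈ B, W a * h a = ∑' a, W a * h a := by
    rw [tsum_eq_sum]
    intro a ha
    rw [hB a ha, zero_mul]
  have h2 : ∑ x ∈ B, W x * h (x + t) = ∑' a, W (a - t) * h a := by
    have h3 : ∑ x ∈ B, W x * h (x + t) = ∑' x, W x * h (x + t) := by
      rw [tsum_eq_sum]
      intro a ha
      rw [hB a ha, zero_mul]
    rw [h3, ← (Equiv.addRight t).tsum_eq (fun a => W (a - t) * h a)]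
    refine tsum_congr fun x => ?_
    simp
  have s1 : Summable fun a => W a * h a := by
    apply summable_of_ne_finset_zero (s := B)
    intro a ha
    rw [hB a ha, zero_mul]
  have s2 : Summable fun a => W (a - t) * h a := by
    have h4 : Summable fun x => W x * h (x + t) := by
      apply summable_of_ne_finset_zero (s := B)
      intro a ha
      rw [hB a ha, zero_mul]
    have h5 := (Equiv.subRight t).summable_iff.2 h4
    refine h5.congr fun a => ?_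
    simp
  rw [h1, h2, ← s1.tsum_sub s2]
  have s3 : Summable fun a => |W a - W (a - t)| := by
    have h6 := (Equiv.subRight t).summable_iff.2 (summ_tv hW t)
    refine h6.congr fun a => ?_
    simp
  have h7 : tv W t = ∑' a, |W a - W (a - t)| := by
    unfold tv
    rw [← (Equiv.addRight t).tsum_eq (fun a => |W a - W (a - t)|)]
    refine tsum_congr fun x => ?_
    simp
  have s4 : Summable fun a => |W a * h a - W (a - t) * h a| := (s1.sub s2).abs
  have h8 : |∑' a, (W a * h a - W (a - t) * h a)| ≤ ∑' a, |W a * h a - W (a - t) * h a| := by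
    have := norm_tsum_le_tsum_norm (f := fun a => W a * h a - W (a - t) * h a) s4
    simpa only [Real.norm_eq_abs] using this
  refine h8.trans ?_
  rw [h7, ← tsum_mul_left]
  refine s4.tsum_le_tsum (fun a => ?_) (s3.mul_left H)
  rw [← sub_mul, abs_mul, mul_comm]
  exact mul_le_mul_of_nonneg_right (hH a) (abs_nonneg _)

theorem key (W : Fin d → Site d → ℝ) (h : Fin d → Site d → ℝ) (H : ℝ) (hH0 : 0 ≤ H)
    (hH : ∀ i a, |h i a| ≤ H)
    (B : Finset (Site d)) (hB : ∀ i, ∀ a ∉ B, W i a = 0) (m : ℕ) :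
    (m : ℝ) ^ d * |∑ a ∈ B, ∑ i, W i a * h i a| ≤
      |∑ x ∈ B, ∑ i, W i x * ∑ a ∈ cube x m, h i a| +
        (m : ℝ) ^ d * (H * (m * ∑ i, ∑ j, tv (W i) (ev j))) := by
  have hW : ∀ i, Summable (W i) := fun i => summable_of_ne_finset_zero (s := B) (hB i)
  set M := ∑ a ∈ B, ∑ i, W i a * h i a with hM
  set Mt : Site d → ℝ := fun t => ∑ x ∈ B, ∑ i, W i x * h i (x + t) with hMt
  have h1 : ∀ t ∈ cube (0 : Site d) m, |M - Mt t| ≤ H * (m * ∑ i, ∑ j, tv (W i) (ev j)) := by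
    intro t ht
    have h2 : M - Mt t = ∑ i, (∑ a ∈ B, W i a * h i a - ∑ x ∈ B, W i x * h i (x + t)) := by
      rw [hM, hMt, Finset.sum_sub_distrib, Finset.sum_comm]
      congr 1
      rw [Finset.sum_comm]
    rw [h2]
    refine (Finset.abs_sum_le_sum_abs _ _).trans ?_
    have h3 : ∀ i ∈ (Finset.univ : Finset (Fin d)),
        |∑ a ∈ B, W i a * h i a - ∑ x ∈ B, W i x * h i (x + t)| ≤
          H * (m * ∑ j, tv (W i) (ev j)) := by
      intro i _
      refine (diff_le (W i) (h i) H (hH i) B (hB i) t).trans ?_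
      exact mul_le_mul_of_nonneg_left (tv_cube (hW i) ht) hH0
    refine (Finset.sum_le_sum h3).trans (le_of_eq ?_)
    rw [← Finset.mul_sum, ← Finset.mul_sum]
  have h4 : ∑ t ∈ cube (0 : Site d) m, Mt t = ∑ x ∈ B, ∑ i, W i x * ∑ a ∈ cube x m, h i a := by
    rw [hMt, Finset.sum_comm]
    refine Finset.sum_congr rfl fun x _ => ?_
    rw [Finset.sum_comm]
    refine Finset.sum_congr rfl fun i _ => ?_
    rw [← Finset.mul_sum, sum_cube x m (h i)]
  have h5 : (m : ℝ) ^ d * M = ∑ t ∈ cube (0 : Site d) m, Mt t +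
      ∑ t ∈ cube (0 : Site d) m, (M - Mt t) := by
    rw [← Finset.sum_add_distrib]
    have : ∀ t ∈ cube (0 : Site d) m, Mt t + (M - Mt t) = M := fun t _ => by ring
    rw [Finset.sum_congr rfl this, Finset.sum_const, card_cube, nsmul_eq_mul]
    push_cast
    ring
  have hm0 : (0 : ℝ) ≤ (m : ℝ) ^ d := by positivity
  rw [← abs_of_nonneg hm0, ← abs_mul, abs_of_nonneg hm0, h5, ← h4]
  refine (abs_add_le _ _).trans ?_
  refine add_le_add le_rfl ?_
  refine (Finset.abs_sum_le_sum_abs _ _).trans ?_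
  refine (Finset.sum_le_sum h1).trans (le_of_eq ?_)
  rw [Finset.sum_const, card_cube, nsmul_eq_mul]
  push_cast
  ring

theorem tv_W (C₀ : ℝ) (hC₀ : 0 < C₀) (hlip : ∀ (c : Site d) (ρ : ℝ), 1 ≤ ρ →
    ∀ (y : Site d) (i j : Fin d), |grad c ρ (y + ev j) i - grad c ρ y i| ≤ C₀ / ρ ^ 2)
    (S : Finset (Site d)) (c : Site d) (ρ : ℕ) (hρ : 1 ≤ ρ) (i j : Fin d) :
    tv (fun a => if a ∈ S then grad c ρ a i else 0) (ev j) ≤
      4 / ρ * (chg S (bx c (ρ + 1)) (ev j) : ℝ) + C₀ / (ρ : ℝ) ^ 2 * (2 * (ρ : ℝ) + 3) ^ d := by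
  have hρ0 : (0 : ℝ) < ρ := by exact_mod_cast hρ
  have hρ1 : (1 : ℝ) ≤ ρ := by exact_mod_cast hρ
  have hsub : ∀ a : Site d, a ∉ bx c (ρ + 1) → a ∉ bx c ρ ∧ a + ev j ∉ bx c ρ := by
    intro a ha
    unfold bx at ha ⊢
    simp only [Fintype.mem_piFinset, Finset.mem_Icc, not_forall, not_and, not_le] at ha ⊢
    obtain ⟨l, hl⟩ := ha
    have hev : ∀ l, 0 ≤ (ev j : Site d) l ∧ (ev j : Site d) l ≤ 1 := by
      intro l
      unfold ev
      by_cases h : l = j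
      · subst h; simp
      · rw [Pi.single_eq_of_ne h]; simp
    have h1 := hev l
    push_cast at hl
    refine ⟨⟨l, fun h2 => ?_⟩, ⟨l, fun h2 => ?_⟩⟩
    · have := hl (by omega)
      omega
    · rw [Pi.add_apply] at h2 ⊢
      have := hl (by omega)
      omega
  unfold tv
  rw [tsum_eq_sum (s := bx c (ρ + 1))]
  · have hpt : ∀ a ∈ bx c (ρ + 1),
        |(if a + ev j ∈ S then grad c ρ (a + ev j) i else 0) -
          (if a ∈ S then grad c ρ a i else 0)| ≤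
          (if ¬ (a ∈ S ↔ a + ev j ∈ S) then 4 / (ρ : ℝ) else 0) + C₀ / (ρ : ℝ) ^ 2 := by
      intro a _
      have hp : 0 ≤ C₀ / (ρ : ℝ) ^ 2 := by positivity
      by_cases h1 : a ∈ S <;> by_cases h2 : a + ev j ∈ S
      · rw [if_pos h1, if_pos h2, if_neg (by simp [h1, h2]), zero_add]
        exact hlip c ρ hρ1 a i j
      · rw [if_pos h1, if_neg h2, if_pos (by simp [h1, h2]), zero_sub, abs_neg]
        have := grad_le c ρ hρ0 a i
        linarith
      · rw [if_neg h1, if_pos h2, if_pos (by simp [h1, h2]), sub_zero]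
        have := grad_le c ρ hρ0 (a + ev j) i
        linarith
      · rw [if_neg h1, if_neg h2, if_neg (by simp [h1, h2]), zero_add, sub_zero, abs_zero]
        exact hp
    refine (Finset.sum_le_sum hpt).trans (le_of_eq ?_)
    rw [Finset.sum_add_distrib, Finset.sum_const, card_bx, ← Finset.sum_filter, Finset.sum_const,
      nsmul_eq_mul, nsmul_eq_mul]
    unfold chg
    push_cast
    ring
  · intro a ha
    obtain ⟨h1, h2⟩ := hsub a ha
    simp only []
    rw [(bump_out c ρ hρ _ h1).2 i, (bump_out c ρ hρ _ h2).2 i]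
    simp

theorem h_le (K : ℕ) {D : Finset (Site d)} (hD : BdK D K) {s : Fin d → ℝ} (hs : ∀ i, |s i| ≤ K)
    {f₁ f₂ : Equiv.Perm (Site d)} (h₁ : IsD D f₁) (h₂ : IsD D f₂) (i : Fin d) (a : Site d) :
    |2 * s i - ((f₁ a i : ℝ) - a i) - ((f₂ a i : ℝ) - a i)| ≤ 4 * K := by
  have e1 : |((f₁ a i : ℝ) - a i)| ≤ K := by
    have := hD.2 _ (h₁ a) i
    rw [Pi.sub_apply] at this
    exact_mod_cast this
  have e2 : |((f₂ a i : ℝ) - a i)| ≤ K := by
    have := hD.2 _ (h₂ a) i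
    rw [Pi.sub_apply] at this
    exact_mod_cast this
  have e3 := hs i
  rw [abs_le] at *
  constructor <;> linarith [e1.1, e1.2, e2.1, e2.2, e3.1, e3.2]

end MainAux

open MainAux

theorem mainA_triv (hd : 2 ≤ d) (K : ℕ) : ∃ C : ℝ, 0 < C ∧
    ∀ D : Finset (Site d), BdK D K → ∀ s : Fin d → ℝ, (∀ i, |s i| ≤ K) →
    ∀ (f₁ f₂ : Equiv.Perm (Site d)), IsD D f₁ → IsD D f₂ →
    ∀ (S : Finset (Site d)) (c : Site d) (ρ : ℕ), 1 ≤ ρ →
    |mainA S c ρ s f₁ f₂| ≤ C * (ρ : ℝ) ^ (d - 1) := by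
  refine ⟨16 * d * K * 3 ^ d + 1, by positivity, ?_⟩
  intro D hD s hs f₁ f₂ h₁ h₂ S c ρ hρ
  have hρ0 : (0 : ℝ) < ρ := by exact_mod_cast hρ
  have hρ1 : (1 : ℝ) ≤ ρ := by exact_mod_cast hρ
  have h1 : |mainA S c ρ s f₁ f₂| ≤ ∑ a ∈ S ∩ bx c ρ, (d : ℝ) * (4 / ρ * (4 * K)) := by
    unfold mainA
    refine (Finset.abs_sum_le_sum_abs _ _).trans (Finset.sum_le_sum fun a _ => ?_)
    refine (Finset.abs_sum_le_sum_abs _ _).trans ?_
    have h2 : ∀ i ∈ (Finset.univ : Finset (Fin d)),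
        |grad c ρ a i * (2 * s i - ((f₁ a i : ℝ) - a i) - ((f₂ a i : ℝ) - a i))| ≤
          4 / ρ * (4 * K) := by
      intro i _
      rw [abs_mul]
      exact mul_le_mul (grad_le c ρ hρ0 a i) (h_le K hD hs h₁ h₂ i a) (abs_nonneg _)
        (by positivity)
    refine (Finset.sum_le_sum h2).trans (le_of_eq ?_)
    rw [Finset.sum_const, Finset.card_univ, Fintype.card_fin, nsmul_eq_mul]
  rw [Finset.sum_const, nsmul_eq_mul] at h1
  have h3 : (((S ∩ bx c ρ).card : ℕ) : ℝ) ≤ (3 * (ρ : ℝ)) ^ d := by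
    have h4 : (S ∩ bx c ρ).card ≤ (2 * ρ + 1) ^ d := by
      rw [← card_bx c ρ]
      exact Finset.card_le_card Finset.inter_subset_right
    have h5 : (2 * ρ + 1) ^ d ≤ (3 * ρ) ^ d := Nat.pow_le_pow_left (by omega) d
    exact_mod_cast h4.trans h5
  have h6 : (ρ : ℝ) ^ d = ρ ^ (d - 1) * ρ := by
    rw [← pow_succ]
    congr 1
    omega
  have h7 : 0 ≤ (d : ℝ) * (4 / ρ * (4 * K)) := by positivity
  have h8 : (3 * (ρ : ℝ)) ^ d * ((d : ℝ) * (4 / ρ * (4 * K))) =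
      16 * d * K * 3 ^ d * ρ ^ (d - 1) := by
    rw [mul_pow, h6]
    field_simp
    ring
  have h9 : (0 : ℝ) ≤ (ρ : ℝ) ^ (d - 1) := by positivity
  calc |mainA S c ρ s f₁ f₂| ≤ _ := h1
    _ ≤ (3 * (ρ : ℝ)) ^ d * ((d : ℝ) * (4 / ρ * (4 * K))) := mul_le_mul_of_nonneg_right h3 h7
    _ = 16 * d * K * 3 ^ d * ρ ^ (d - 1) := h8
    _ ≤ (16 * d * K * 3 ^ d + 1) * ρ ^ (d - 1) := by
      rw [add_mul, one_mul]
      linarith

theorem mainA_le (hd : 2 ≤ d) (K : ℕ) : ∃ C : ℝ, 0 < C ∧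
    ∀ D : Finset (Site d), BdK D K → ∀ s : Fin d → ℝ, (∀ i, |s i| ≤ K) →
    ∀ (f₁ f₂ : Equiv.Perm (Site d)), IsD D f₁ → IsD D f₂ →
    ∀ (S : Finset (Site d)) (c : Site d) (ρ : ℕ), 1 ≤ ρ → ∀ (m : ℕ), 1 ≤ m → ∀ ε : ℝ, 0 ≤ ε →
    |mainA S c ρ s f₁ f₂| ≤ C / ρ * (ε * (ρ : ℝ) ^ d
        + (((bx c ρ).filter fun x => ε * (m : ℝ) ^ d < ‖defect f₁ f₂ s m x‖).card : ℝ)
        + m * ∑ j, (chg S (bx c (ρ + 1)) (ev j) : ℝ)) + C * m * (ρ : ℝ) ^ (d - 2) := by
  obtain ⟨C₀, hC₀, hlip⟩ := grad_lip d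
  refine ⟨4 * d * 3 ^ d + 16 * d * K + 4 * K * d * (d * (C₀ * 5 ^ d)) + 1, by positivity, ?_⟩
  intro D hD s hs f₁ f₂ h₁ h₂ S c ρ hρ m hm ε hε
  have hρ0 : (0 : ℝ) < ρ := by exact_mod_cast hρ
  have hρ1 : (1 : ℝ) ≤ ρ := by exact_mod_cast hρ
  have hm0 : (0 : ℝ) < (m : ℝ) := by exact_mod_cast hm
  have hmd : (0 : ℝ) < (m : ℝ) ^ d := by positivity
  set W : Fin d → Site d → ℝ := fun i a => if a ∈ S then grad c ρ a i else 0 with hWdef
  set h : Fin d → Site d → ℝ :=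
    fun i a => 2 * s i - ((f₁ a i : ℝ) - a i) - ((f₂ a i : ℝ) - a i) with hh
  have hB : ∀ i, ∀ a ∉ bx c ρ, W i a = 0 := by
    intro i a ha
    rw [hWdef]
    simp only []
    rw [(bump_out c ρ hρ _ ha).2 i]
    simp
  have hH : ∀ i a, |h i a| ≤ 4 * K := fun i a => h_le K hD hs h₁ h₂ i a
  have hWle : ∀ i a, |W i a| ≤ 4 / ρ := by
    intro i a
    rw [hWdef]
    simp only []
    split_ifs
    · exact grad_le c ρ hρ0 a i
    · rw [abs_zero]; positivity
  have hmain : mainA S c ρ s f₁ f₂ = ∑ a ∈ bx c ρ, ∑ i, W i a * h i a := by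
    unfold mainA
    rw [Finset.inter_comm, ← Finset.filter_mem_eq_inter, Finset.sum_filter]
    refine Finset.sum_congr rfl fun a _ => ?_
    rw [hWdef, hh]
    simp only []
    split_ifs
    · rfl
    · simp
  have hkey := key W h (4 * K) (by positivity) hH (bx c ρ) hB m
  rw [← hmain] at hkey
  -- the defect
  have hdef : ∀ (x : Site d) (i : Fin d), ∑ a ∈ cube x m, h i a = - defect f₁ f₂ s m x i := by
    intro x i
    unfold defect
    rw [Finset.sum_apply, ← Finset.sum_neg_distrib]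
    refine Finset.sum_congr rfl fun a _ => ?_
    rw [hh]
    simp only [rv, Pi.sub_apply, Pi.add_apply, Pi.smul_apply, smul_eq_mul, Int.cast_sub]
    ring
  have hdefle : ∀ x : Site d, ‖defect f₁ f₂ s m x‖ ≤ 4 * K * (m : ℝ) ^ d := by
    intro x
    rw [pi_norm_le_iff_of_nonneg (by positivity)]
    intro i
    rw [Real.norm_eq_abs, ← abs_neg, ← hdef]
    refine (Finset.abs_sum_le_sum_abs _ _).trans ?_
    refine (Finset.sum_le_sum fun a _ => hH i a).trans (le_of_eq ?_)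
    rw [Finset.sum_const, card_cube, nsmul_eq_mul]
    push_cast
    ring
  set bad : Finset (Site d) :=
    (bx c ρ).filter fun x => ε * (m : ℝ) ^ d < ‖defect f₁ f₂ s m x‖ with hbad
  have hfirst : |∑ x ∈ bx c ρ, ∑ i, W i x * ∑ a ∈ cube x m, h i a| ≤
      (m : ℝ) ^ d * (4 * d / ρ * (ε * (3 * (ρ : ℝ)) ^ d + 4 * K * (bad.card : ℝ))) := by
    have h1 : ∀ x ∈ bx c ρ, |∑ i, W i x * ∑ a ∈ cube x m, h i a| ≤
        4 * d / ρ * (ε * (m : ℝ) ^ d +
          if ε * (m : ℝ) ^ d < ‖defect f₁ f₂ s m x‖ then 4 * K * (m : ℝ) ^ d else 0) := by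
      intro x _
      have h2 : |∑ i, W i x * ∑ a ∈ cube x m, h i a| ≤ 4 * d / ρ * ‖defect f₁ f₂ s m x‖ := by
        refine (Finset.abs_sum_le_sum_abs _ _).trans ?_
        have h3 : ∀ i ∈ (Finset.univ : Finset (Fin d)), |W i x * ∑ a ∈ cube x m, h i a| ≤
            4 / ρ * ‖defect f₁ f₂ s m x‖ := by
          intro i _
          rw [abs_mul]
          refine mul_le_mul (hWle i x) ?_ (abs_nonneg _) (by positivity)
          rw [hdef, abs_neg, ← Real.norm_eq_abs]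
          exact norm_le_pi_norm _ i
        refine (Finset.sum_le_sum h3).trans (le_of_eq ?_)
        rw [Finset.sum_const, Finset.card_univ, Fintype.card_fin, nsmul_eq_mul]
        ring
      refine h2.trans (mul_le_mul_of_nonneg_left ?_ (by positivity))
      split_ifs with h4
      · have := hdefle x
        have h5 : 0 ≤ ε * (m : ℝ) ^ d := by positivity
        linarith
      · push Not at h4
        linarith
    refine (Finset.abs_sum_le_sum_abs _ _).trans ((Finset.sum_le_sum h1).trans ?_)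
    rw [← Finset.mul_sum, Finset.sum_add_distrib, Finset.sum_const, ← Finset.sum_filter,
      Finset.sum_const, card_bx, nsmul_eq_mul, nsmul_eq_mul, ← hbad]
    have h6 : (((2 * ρ + 1) ^ d : ℕ) : ℝ) ≤ (3 * (ρ : ℝ)) ^ d := by
      have h5 : (2 * ρ + 1) ^ d ≤ (3 * ρ) ^ d := Nat.pow_le_pow_left (by omega) d
      exact_mod_cast h5
    have h7 : (((2 * ρ + 1) ^ d : ℕ) : ℝ) * (ε * (m : ℝ) ^ d) ≤
        (3 * (ρ : ℝ)) ^ d * (ε * (m : ℝ) ^ d) :=
      mul_le_mul_of_nonneg_right h6 (by positivity)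
    have h8 : (0 : ℝ) ≤ 4 * d / ρ := by positivity
    calc 4 * d / ρ * ((((2 * ρ + 1) ^ d : ℕ) : ℝ) * (ε * (m : ℝ) ^ d) +
          (bad.card : ℝ) * (4 * K * (m : ℝ) ^ d))
        ≤ 4 * d / ρ * ((3 * (ρ : ℝ)) ^ d * (ε * (m : ℝ) ^ d) +
          (bad.card : ℝ) * (4 * K * (m : ℝ) ^ d)) :=
          mul_le_mul_of_nonneg_left (by linarith) h8
      _ = _ := by ring
  -- the variation
  have hvar : ∑ i, ∑ j, tv (W i) (ev j) ≤
      d * (4 / ρ * ∑ j, (chg S (bx c (ρ + 1)) (ev j) : ℝ) +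
        d * (C₀ / (ρ : ℝ) ^ 2 * (5 * (ρ : ℝ)) ^ d)) := by
    have h1 : ∀ i ∈ (Finset.univ : Finset (Fin d)), ∑ j, tv (W i) (ev j) ≤
        4 / ρ * ∑ j, (chg S (bx c (ρ + 1)) (ev j) : ℝ) +
        d * (C₀ / (ρ : ℝ) ^ 2 * (5 * (ρ : ℝ)) ^ d) := by
      intro i _
      have h2 : ∀ j ∈ (Finset.univ : Finset (Fin d)), tv (W i) (ev j) ≤
          4 / ρ * (chg S (bx c (ρ + 1)) (ev j) : ℝ) + C₀ / (ρ : ℝ) ^ 2 * (5 * (ρ : ℝ)) ^ d := by
        intro j _
        refine (tv_W C₀ hC₀ hlip S c ρ hρ i j).trans ?_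
        have h3 : (2 * (ρ : ℝ) + 3) ^ d ≤ (5 * (ρ : ℝ)) ^ d :=
          pow_le_pow_left₀ (by positivity) (by linarith) d
        have h4 : 0 ≤ C₀ / (ρ : ℝ) ^ 2 := by positivity
        have := mul_le_mul_of_nonneg_left h3 h4
        linarith
      refine (Finset.sum_le_sum h2).trans (le_of_eq ?_)
      rw [Finset.sum_add_distrib, ← Finset.mul_sum, Finset.sum_const, Finset.card_univ,
        Fintype.card_fin, nsmul_eq_mul]
    refine (Finset.sum_le_sum h1).trans (le_of_eq ?_)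
    rw [Finset.sum_const, Finset.card_univ, Fintype.card_fin, nsmul_eq_mul]
  set Q : ℝ := ∑ j, (chg S (bx c (ρ + 1)) (ev j) : ℝ) with hQ
  have hQ0 : 0 ≤ Q := Finset.sum_nonneg fun j _ => by positivity
  have hb0 : (0 : ℝ) ≤ bad.card := by positivity
  have hfin : |mainA S c ρ s f₁ f₂| ≤
      4 * d / ρ * (ε * (3 * (ρ : ℝ)) ^ d + 4 * K * (bad.card : ℝ)) +
      4 * K * (m * (d * (4 / ρ * Q + d * (C₀ / (ρ : ℝ) ^ 2 * (5 * (ρ : ℝ)) ^ d)))) := by
    have h1 := hkey.trans (add_le_add hfirst le_rfl)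
    rw [← mul_add] at h1
    have h2 := le_of_mul_le_mul_left h1 hmd
    refine h2.trans (add_le_add le_rfl ?_)
    refine mul_le_mul_of_nonneg_left ?_ (by positivity)
    exact mul_le_mul_of_nonneg_left hvar hm0.le
  have hpow : (ρ : ℝ) ^ d = ρ ^ (d - 2) * ρ ^ 2 := by
    rw [← pow_add]
    congr 1
    omega
  refine hfin.trans ?_
  set P : ℝ := (ρ : ℝ) ^ (d - 2) with hP
  have hP0 : 0 ≤ P := by positivity
  have e1 : C₀ / (ρ : ℝ) ^ 2 * (5 * (ρ : ℝ)) ^ d = C₀ * 5 ^ d * P := by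
    rw [mul_pow, hpow]
    field_simp
  rw [e1]
  have e2 : (3 * (ρ : ℝ)) ^ d = 3 ^ d * (ρ : ℝ) ^ d := mul_pow _ _ _
  rw [e2]
  set R : ℝ := (ρ : ℝ) ^ d with hR
  have hR0 : 0 ≤ R := by positivity
  have hinv : (0 : ℝ) ≤ 1 / ρ := by positivity
  have hεR : 0 ≤ ε * R := mul_nonneg hε hR0
  have k1 : (0 : ℝ) ≤ 4 * d * 3 ^ d := by positivity
  have k2 : (0 : ℝ) ≤ 16 * d * K := by positivity
  have k3 : (0 : ℝ) ≤ 4 * K * d * (d * (C₀ * 5 ^ d)) := by positivity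
  set c1 : ℝ := 4 * d * 3 ^ d with hc1
  set c2 : ℝ := 16 * d * K with hc2
  set c3 : ℝ := 4 * K * d * (d * (C₀ * 5 ^ d)) with hc3
  have t1 : 4 * d / ρ * (ε * (3 ^ d * R) + 4 * K * (bad.card : ℝ)) +
      4 * K * (m * (d * (4 / ρ * Q + d * (C₀ * 5 ^ d * P)))) =
      c1 * ((1 / ρ) * (ε * R)) + c2 * ((1 / ρ) * bad.card) + c2 * ((1 / ρ) * (m * Q)) +
        c3 * (m * P) := by
    rw [hc1, hc2, hc3]
    ring
  rw [t1]
  have t2 : (c1 + c2 + c3 + 1) / ρ * (ε * R + (bad.card : ℝ) + m * Q) +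
      (c1 + c2 + c3 + 1) * m * P = (c1 + c2 + c3 + 1) * ((1 / ρ) * (ε * R)) +
      (c1 + c2 + c3 + 1) * ((1 / ρ) * bad.card) + (c1 + c2 + c3 + 1) * ((1 / ρ) * (m * Q)) +
      (c1 + c2 + c3 + 1) * (m * P) := by ring
  rw [t2]
  have u1 : 0 ≤ (1 / (ρ : ℝ)) * (ε * R) := mul_nonneg hinv hεR
  have u2 : 0 ≤ (1 / (ρ : ℝ)) * bad.card := mul_nonneg hinv hb0
  have u3 : 0 ≤ (1 / (ρ : ℝ)) * (m * Q) := mul_nonneg hinv (mul_nonneg hm0.le hQ0)
  have u4 : 0 ≤ (m : ℝ) * P := mul_nonneg hm0.le hP0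
  have v1 := mul_le_mul_of_nonneg_right (show c1 ≤ c1 + c2 + c3 + 1 by linarith) u1
  have v2 := mul_le_mul_of_nonneg_right (show c2 ≤ c1 + c2 + c3 + 1 by linarith) u2
  have v3 := mul_le_mul_of_nonneg_right (show c2 ≤ c1 + c2 + c3 + 1 by linarith) u3
  have v4 := mul_le_mul_of_nonneg_right (show c3 ≤ c1 + c2 + c3 + 1 by linarith) u4
  linarith

end DE
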