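import Pool.Agent.Helper10.DE.RC.Bump

/-!
# DE VIII.6  The flux identity

Let `φ = bump c ρ`, `G = grad c ρ`.
PROOF.  For `v ∈ D` let
`T v = ∑_y φ(y) [2·1(y - v ∈ S) - 1(f₁⁻¹ y ∈ S) - 1(f₂⁻¹ y ∈ S)]` (sum over `y ∈ bx c ρ`, outside `φ = 0`).
(a) By `Mono` every summand of `σT v` (`σ = +1` for `true`, `-1` for `false`) is `≥ 0`: e.g. for
`σ = true`: `1(y - v ∈ S) ≥ 1(f_i⁻¹ y ∈ S)`.  Moreover if `¬ (y - v ∈ S ↔ f₁⁻¹ y ∈ S)` and `y ∈ bx c n`
the summand is `≥ φ(y) ≥ 1/4` (`bump_low`; `bx c n ⊆ bx c ρ` because `2 d n² ≤ ρ²`, `d ≥ 2`).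
So `σT v ≥ (1/4) #{y ∈ bx c n | ...}`, and all `σT v' ≥ 0`:
`∑_{v'} p v' σT v' ≥ p v (1/4) #{...}`.
(b) Substituting `y = a + v`, `y = f_i a` (bijections):
`T v = ∑_{a ∈ S} [2 φ(a + v) - φ(f₁ a) - φ(f₂ a)]` (finite sum over the Finset `S`).
Since `∑ p v = 1`, `∑ p v v = s`: with `E_a(u) = φ(a + u) - φ(a) - G(a)·u`,
`∑_v p v T v = ∑_{a ∈ S} [ G(a)·(2 s - (f₁ a - a) - (f₂ a - a)) + ∑_v p v 2 E_a(v) - E_a(f₁ a - a)
  - E_a(f₂ a - a) ]`, where `|E_a| ≤ C₀/ρ²` by `bump_taylor`, and the bracket vanishes unless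
`a ∈ bx c (ρ + K)` (`bump_out`), a box with `(2ρ + 2K + 1)^d ≤ ((2K + 3) ρ)^d` points.  The first part
is `mainA S c ρ s f₁ f₂` (the gradient vanishes off `bx c ρ`).  So
`|∑ p v T v| ≤ |mainA| + 4 C₀ (2K+3)^d ρ^d/ρ²`, and `ρ^d/ρ² = ρ^(d-2)` as `d ≥ 2`.
-/

noncomputable section

namespace DE

variable {d : ℕ}

/-- substitution `y = e a` -/
private theorem mc_sum_ind (Q S : Finset (Site d)) (φ : Site d → ℝ) (e : Equiv.Perm (Site d))
    (h : ∀ y, y ∉ Q → φ y = 0) :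
    ∑ y ∈ Q, φ y * (if e⁻¹ y ∈ S then (1 : ℝ) else 0) = ∑ a ∈ S, φ (e a) := by
  classical
  have h1 : ∑ y ∈ Q, φ y * (if e⁻¹ y ∈ S then (1 : ℝ) else 0) =
      ∑ y ∈ Q.filter (fun y => e⁻¹ y ∈ S), φ y := by
    rw [Finset.sum_filter]
    refine Finset.sum_congr rfl fun y _ => ?_
    split_ifs <;> simp
  have h2 : ∑ a ∈ S, φ (e a) = ∑ a ∈ S.filter (fun a => e a ∈ Q), φ (e a) := by
    symm
    refine Finset.sum_filter_of_ne fun a _ ha => ?_
    by_contra hc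
    exact ha (h _ hc)
  rw [h1, h2]
  refine Finset.sum_nbij' (fun y => e⁻¹ y) (fun a => e a) ?_ ?_ ?_ ?_ ?_
  · intro y hy
    rw [Finset.mem_filter] at hy ⊢
    exact ⟨hy.2, by simpa using hy.1⟩
  · intro a ha
    rw [Finset.mem_filter] at ha ⊢
    exact ⟨ha.2, by simpa using ha.1⟩
  · intro y _
    simp
  · intro a _
    simp
  · intro y _
    simp

private theorem mc_prop (σ : Bool) (P R : Prop) [Decidable P] [Decidable R]
    (h1 : σ = true → R → P) (h2 : σ = false → P → R) :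
    0 ≤ (if σ = true then (1 : ℝ) else -1) *
      ((if P then (1 : ℝ) else 0) - (if R then (1 : ℝ) else 0)) ∧
    (¬ (P ↔ R) → 1 ≤ (if σ = true then (1 : ℝ) else -1) *
      ((if P then (1 : ℝ) else 0) - (if R then (1 : ℝ) else 0))) := by
  cases σ with
  | true =>
    have h1' := h1 rfl
    by_cases ha : P
    · by_cases hb : R
      · simp [ha, hb]
      · simp [ha, hb]
    · by_cases hb : R
      · exact absurd (h1' hb) ha
      · simp [ha, hb]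
  | false =>
    have h2' := h2 rfl
    by_cases ha : P
    · have hb := h2' ha
      simp [ha, hb]
    · by_cases hb : R
      · simp [ha, hb]
      · simp [ha, hb]

private theorem mc_term (σ : Bool) (S D Q : Finset (Site d)) (f : Equiv.Perm (Site d))
    (h : Mono σ S D f Q) {y : Site d} (hy : y ∈ Q) {v : Site d} (hv : v ∈ D) :
    0 ≤ (if σ = true then (1 : ℝ) else -1) *
      ((if y - v ∈ S then (1 : ℝ) else 0) - (if f⁻¹ y ∈ S then (1 : ℝ) else 0)) ∧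
    (¬ (y - v ∈ S ↔ f⁻¹ y ∈ S) → 1 ≤ (if σ = true then (1 : ℝ) else -1) *
      ((if y - v ∈ S then (1 : ℝ) else 0) - (if f⁻¹ y ∈ S then (1 : ℝ) else 0))) :=
  mc_prop σ _ _ (h y hy v hv).1 (h y hy v hv).2

private theorem mc_bx_subset (c : Site d) {m n : ℕ} (h : m ≤ n) : bx c m ⊆ bx c n := by
  intro y hy
  unfold bx at *
  rw [Fintype.mem_piFinset] at *
  intro i
  have := hy i
  rw [Finset.mem_Icc] at *
  have h' : (m : ℤ) ≤ n := by exact_mod_cast h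
  constructor <;> linarith [this.1, this.2]

private theorem mc_bx_out (c : Site d) {ρ K : ℕ} {y v : Site d} (hy : y ∉ bx c (ρ + K))
    (hv : ∀ i, |v i| ≤ K) : y + v ∉ bx c ρ := by
  intro h
  apply hy
  unfold bx at *
  rw [Fintype.mem_piFinset] at *
  intro i
  have h1 := h i
  have h2 := abs_le.1 (hv i)
  rw [Finset.mem_Icc] at *
  rw [Pi.add_apply] at h1
  push_cast
  constructor <;> linarith [h1.1, h1.2, h2.1, h2.2]

private theorem mc_bx_card (c : Site d) (m : ℕ) : (bx c m).card = (2 * m + 1) ^ d := by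
  unfold bx
  rw [Fintype.card_piFinset]
  have : ∀ i : Fin d, (Finset.Icc (c i - (m : ℤ)) (c i + m)).card = 2 * m + 1 := by
    intro i
    rw [Int.card_Icc]
    omega
  rw [Finset.prod_congr rfl fun i _ => this i]
  simp

theorem mono_count (hd : 2 ≤ d) (K : ℕ) : ∃ C : ℝ, 0 < C ∧
    ∀ D : Finset (Site d), BdK D K → ∀ p : Site d → ℝ, (∀ v ∈ D, 0 < p v) → ∑ v ∈ D, p v = 1 →
    ∀ s : Fin d → ℝ, ∑ v ∈ D, p v • rv v = s →
    ∀ (σ : Bool) (f₁ f₂ : Equiv.Perm (Site d)), IsD D f₁ → IsD D f₂ →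
    ∀ (S : Finset (Site d)) (c : Site d) (ρ n : ℕ), 1 ≤ ρ → 2 * d * n ^ 2 ≤ ρ ^ 2 →
      Mono σ S D f₁ (bx c ρ) → Mono σ S D f₂ (bx c ρ) →
    ∀ v ∈ D, p v * (((bx c n).filter fun y => ¬ (y - v ∈ S ↔ f₁⁻¹ y ∈ S)).card : ℝ) ≤
      4 * (|mainA S c ρ s f₁ f₂| + C * (ρ : ℝ) ^ (d - 2)) := by
  classical
  obtain ⟨C₀, hC₀, hT⟩ := bump_taylor d K
  refine ⟨4 * C₀ * (2 * K + 3) ^ d, by positivity, ?_⟩
  intro D hBd p hp hp1 s hs σ f₁ f₂ hf₁ hf₂ S c ρ n hρ hn hm₁ hm₂ v hv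
  have hρ' : (1 : ℝ) ≤ (ρ : ℝ) := by exact_mod_cast hρ
  have hρ0 : (0 : ℝ) < (ρ : ℝ) := by linarith
  set t : ℝ := if σ = true then (1 : ℝ) else -1 with ht
  have htabs : |t| = 1 := by
    rw [ht]; split_ifs <;> simp
  set φ : Site d → ℝ := bump c (ρ : ℝ) with hφ
  have hφ0 : ∀ y, 0 ≤ φ y := fun y => bump_nonneg c ρ y
  have hφout : ∀ y, y ∉ bx c ρ → φ y = 0 := fun y hy => (bump_out c ρ hρ y hy).1
  set T : Site d → ℝ := fun u => ∑ y ∈ bx c ρ, φ y * (2 * (if y - u ∈ S then (1 : ℝ) else 0) -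
    (if f₁⁻¹ y ∈ S then (1 : ℝ) else 0) - (if f₂⁻¹ y ∈ S then (1 : ℝ) else 0)) with hTdef
  -- (a)
  have hterm : ∀ u ∈ D, ∀ y ∈ bx c ρ, 0 ≤ t * (φ y * (2 * (if y - u ∈ S then (1 : ℝ) else 0) -
      (if f₁⁻¹ y ∈ S then (1 : ℝ) else 0) - (if f₂⁻¹ y ∈ S then (1 : ℝ) else 0))) := by
    intro u hu y hy
    have h1 := (mc_term σ S D _ f₁ hm₁ hy hu).1
    have h2 := (mc_term σ S D _ f₂ hm₂ hy hu).1
    rw [← ht] at h1 h2
    have h3 := mul_nonneg (hφ0 y) (add_nonneg h1 h2)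
    refine le_of_le_of_eq h3 ?_
    ring
  have hnonneg : ∀ u ∈ D, 0 ≤ t * T u := by
    intro u hu
    rw [hTdef]
    simp only
    rw [Finset.mul_sum]
    exact Finset.sum_nonneg fun y hy => hterm u hu y hy
  have hnρ : n ≤ ρ := by
    have h1 : n ^ 2 ≤ ρ ^ 2 := by nlinarith [Nat.zero_le (n ^ 2)]
    exact (Nat.pow_le_pow_iff_left (by norm_num)).1 h1
  have hlow : (1 / 4) * (((bx c n).filter fun y => ¬ (y - v ∈ S ↔ f₁⁻¹ y ∈ S)).card : ℝ) ≤
      t * T v := by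
    have hsub : ((bx c n).filter fun y => ¬ (y - v ∈ S ↔ f₁⁻¹ y ∈ S)) ⊆ bx c ρ :=
      (Finset.filter_subset _ _).trans (mc_bx_subset c hnρ)
    calc (1 / 4) * (((bx c n).filter fun y => ¬ (y - v ∈ S ↔ f₁⁻¹ y ∈ S)).card : ℝ)
        = ∑ _y ∈ (bx c n).filter fun y => ¬ (y - v ∈ S ↔ f₁⁻¹ y ∈ S), (1 / 4 : ℝ) := by
          rw [Finset.sum_const, nsmul_eq_mul, mul_comm]
      _ ≤ ∑ y ∈ (bx c n).filter fun y => ¬ (y - v ∈ S ↔ f₁⁻¹ y ∈ S),
            t * (φ y * (2 * (if y - v ∈ S then (1 : ℝ) else 0) -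
            (if f₁⁻¹ y ∈ S then (1 : ℝ) else 0) - (if f₂⁻¹ y ∈ S then (1 : ℝ) else 0))) := by
          refine Finset.sum_le_sum fun y hy => ?_
          have hy' := hsub hy
          rw [Finset.mem_filter] at hy
          have h1 := (mc_term σ S D _ f₁ hm₁ hy' hv).2 hy.2
          have h2 := (mc_term σ S D _ f₂ hm₂ hy' hv).1
          rw [← ht] at h1 h2
          have h3 : 1 / 4 ≤ φ y := bump_low c ρ n hρ hn y hy.1
          have h4 : (1 / 4 : ℝ) ≤ φ y *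
              (t * ((if y - v ∈ S then (1 : ℝ) else 0) - (if f₁⁻¹ y ∈ S then (1 : ℝ) else 0)) +
              t * ((if y - v ∈ S then (1 : ℝ) else 0) - (if f₂⁻¹ y ∈ S then (1 : ℝ) else 0))) := by
            nlinarith [hφ0 y]
          refine le_of_le_of_eq h4 ?_
          ring
      _ ≤ ∑ y ∈ bx c ρ,
            t * (φ y * (2 * (if y - v ∈ S then (1 : ℝ) else 0) -
            (if f₁⁻¹ y ∈ S then (1 : ℝ) else 0) - (if f₂⁻¹ y ∈ S then (1 : ℝ) else 0))) :=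
          Finset.sum_le_sum_of_subset_of_nonneg hsub fun y hy _ => hterm v hv y hy
      _ = t * T v := by rw [hTdef, Finset.mul_sum]
  -- (b)
  have hTS : ∀ u, T u = ∑ a ∈ S, (2 * φ (a + u) - φ (f₁ a) - φ (f₂ a)) := by
    intro u
    have h0 := mc_sum_ind (bx c ρ) S φ (Equiv.addRight u) hφout
    have h1 := mc_sum_ind (bx c ρ) S φ f₁ hφout
    have h2 := mc_sum_ind (bx c ρ) S φ f₂ hφout
    have hinv : ∀ y : Site d, (Equiv.addRight u)⁻¹ y = y - u := by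
      intro y
      rw [Equiv.Perm.inv_eq_iff_eq]
      simp
    simp only [hinv, Equiv.coe_addRight] at h0
    rw [hTdef]
    simp only
    rw [Finset.sum_sub_distrib, Finset.sum_sub_distrib, ← h1, ← h2, ← Finset.mul_sum, ← h0,
      Finset.mul_sum, ← Finset.sum_sub_distrib, ← Finset.sum_sub_distrib]
    refine Finset.sum_congr rfl fun y _ => ?_
    ring
  set E : Site d → Site d → ℝ := fun a u => φ (a + u) - φ a -
    ∑ i, grad c (ρ : ℝ) a i * (u i : ℝ) with hE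
  have hEle : ∀ a u : Site d, (∀ i, |u i| ≤ K) → |E a u| ≤ C₀ / (ρ : ℝ) ^ 2 := by
    intro a u hu
    exact hT c (ρ : ℝ) hρ' a u hu
  have hE0 : ∀ a u : Site d, a ∉ bx c (ρ + K) → (∀ i, |u i| ≤ K) → E a u = 0 := by
    intro a u ha hu
    have h1 := mc_bx_out c ha hu
    have h2 : a ∉ bx c ρ := fun h => ha (mc_bx_subset c (Nat.le_add_right ρ K) h)
    obtain ⟨h3, h4⟩ := bump_out c ρ hρ a h2
    rw [hE]
    simp only
    rw [hφout _ h1, hφout _ h2]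
    simp [h4]
  set R : Site d → ℝ := fun a => 2 * ∑ u ∈ D, p u * E a u - E a (f₁ a - a) - E a (f₂ a - a)
    with hR
  have hf₁K : ∀ a i, |(f₁ a - a) i| ≤ K := fun a i => hBd.2 _ (hf₁ a) i
  have hf₂K : ∀ a i, |(f₂ a - a) i| ≤ K := fun a i => hBd.2 _ (hf₂ a) i
  have hRle : ∀ a, |R a| ≤ 4 * C₀ / (ρ : ℝ) ^ 2 := by
    intro a
    have h1 : |∑ u ∈ D, p u * E a u| ≤ C₀ / (ρ : ℝ) ^ 2 := by
      calc |∑ u ∈ D, p u * E a u| ≤ ∑ u ∈ D, |p u * E a u| := Finset.abs_sum_le_sum_abs _ _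
        _ ≤ ∑ u ∈ D, p u * (C₀ / (ρ : ℝ) ^ 2) := by
            refine Finset.sum_le_sum fun u hu => ?_
            rw [abs_mul, abs_of_pos (hp u hu)]
            exact mul_le_mul_of_nonneg_left (hEle a u (hBd.2 u hu)) (hp u hu).le
        _ = C₀ / (ρ : ℝ) ^ 2 := by rw [← Finset.sum_mul, hp1, one_mul]
    have h2 := hEle a (f₁ a - a) (hf₁K a)
    have h3 := hEle a (f₂ a - a) (hf₂K a)
    have h4 : 4 * C₀ / (ρ : ℝ) ^ 2 = 4 * (C₀ / (ρ : ℝ) ^ 2) := by ring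
    rw [h4, hR]
    simp only
    rw [abs_le] at *
    constructor <;> linarith [h1.1, h1.2, h2.1, h2.2, h3.1, h3.2]
  have hR0 : ∀ a, a ∉ bx c (ρ + K) → R a = 0 := by
    intro a ha
    rw [hR]
    simp only
    rw [hE0 a _ ha (hf₁K a), hE0 a _ ha (hf₂K a),
      Finset.sum_eq_zero fun u hu => by rw [hE0 a u ha (hBd.2 u hu), mul_zero]]
    ring
  have hsi : ∀ i, ∑ u ∈ D, p u * (u i : ℝ) = s i := by
    intro i
    rw [← hs]
    simp [rv, Finset.sum_apply]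
  have hpoint : ∀ a, ∑ u ∈ D, p u * (2 * φ (a + u)) - φ (f₁ a) - φ (f₂ a) =
      ∑ i, grad c (ρ : ℝ) a i * (2 * s i - ((f₁ a i : ℝ) - a i) - ((f₂ a i : ℝ) - a i)) + R a := by
    intro a
    have e1 : ∀ u : Site d, φ (a + u) = φ a + ∑ i, grad c (ρ : ℝ) a i * (u i : ℝ) + E a u := by
      intro u
      rw [hE]
      ring
    have e2 : φ (f₁ a) = φ a + ∑ i, grad c (ρ : ℝ) a i * ((f₁ a i : ℝ) - a i) +
        E a (f₁ a - a) := by
      have := e1 (f₁ a - a)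
      rw [add_sub_cancel] at this
      rw [this]
      simp
    have e3 : φ (f₂ a) = φ a + ∑ i, grad c (ρ : ℝ) a i * ((f₂ a i : ℝ) - a i) +
        E a (f₂ a - a) := by
      have := e1 (f₂ a - a)
      rw [add_sub_cancel] at this
      rw [this]
      simp
    have e4 : ∑ u ∈ D, p u * (2 * φ (a + u)) = 2 * φ a + 2 * ∑ i, grad c (ρ : ℝ) a i * s i +
        2 * ∑ u ∈ D, p u * E a u := by
      have h1 : ∑ u ∈ D, p u * (2 * φ (a + u)) = ∑ u ∈ D, (p u * (2 * φ a) +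
          2 * ∑ i, grad c (ρ : ℝ) a i * (p u * (u i : ℝ)) + 2 * (p u * E a u)) := by
        refine Finset.sum_congr rfl fun u _ => ?_
        rw [e1 u]
        have : ∑ i, grad c (ρ : ℝ) a i * (p u * (u i : ℝ)) =
            p u * ∑ i, grad c (ρ : ℝ) a i * (u i : ℝ) := by
          rw [Finset.mul_sum]
          refine Finset.sum_congr rfl fun i _ => ?_
          ring
        rw [this]
        ring
      rw [h1, Finset.sum_add_distrib, Finset.sum_add_distrib, ← Finset.sum_mul, hp1, one_mul,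
        ← Finset.mul_sum, ← Finset.mul_sum, Finset.sum_comm]
      congr 2
      congr 1
      refine Finset.sum_congr rfl fun i _ => ?_
      rw [← Finset.mul_sum, hsi]
    have e5 : ∑ i, grad c (ρ : ℝ) a i *
        (2 * s i - ((f₁ a i : ℝ) - a i) - ((f₂ a i : ℝ) - a i)) =
        2 * ∑ i, grad c (ρ : ℝ) a i * s i - ∑ i, grad c (ρ : ℝ) a i * ((f₁ a i : ℝ) - a i) -
        ∑ i, grad c (ρ : ℝ) a i * ((f₂ a i : ℝ) - a i) := by
      rw [Finset.mul_sum, ← Finset.sum_sub_distrib, ← Finset.sum_sub_distrib]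
      refine Finset.sum_congr rfl fun i _ => ?_
      ring
    rw [e2, e3, e4, e5, hR]
    ring
  have hsum : ∑ u ∈ D, p u * T u = mainA S c ρ s f₁ f₂ + ∑ a ∈ S ∩ bx c (ρ + K), R a := by
    have h1 : ∑ u ∈ D, p u * T u = ∑ a ∈ S, (∑ u ∈ D, p u * (2 * φ (a + u)) - φ (f₁ a) -
        φ (f₂ a)) := by
      have h2 : ∀ a, ∑ u ∈ D, p u * (2 * φ (a + u)) - φ (f₁ a) - φ (f₂ a) =
          ∑ u ∈ D, p u * (2 * φ (a + u) - φ (f₁ a) - φ (f₂ a)) := by
        intro a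
        have h3 : ∀ u ∈ D, p u * (2 * φ (a + u) - φ (f₁ a) - φ (f₂ a)) =
            p u * (2 * φ (a + u)) - p u * φ (f₁ a) - p u * φ (f₂ a) := fun u _ => by ring
        rw [Finset.sum_congr rfl h3, Finset.sum_sub_distrib, Finset.sum_sub_distrib,
          ← Finset.sum_mul, ← Finset.sum_mul, hp1, one_mul, one_mul]
      rw [Finset.sum_congr rfl fun a _ => h2 a, Finset.sum_comm]
      refine Finset.sum_congr rfl fun u _ => ?_
      rw [hTS, Finset.mul_sum]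
    rw [h1, Finset.sum_congr rfl fun a _ => hpoint a, Finset.sum_add_distrib]
    congr 1
    · unfold mainA
      symm
      refine Finset.sum_subset Finset.inter_subset_left fun a haS ha => ?_
      have ha' : a ∉ bx c ρ := fun h => ha (Finset.mem_inter.2 ⟨haS, h⟩)
      refine Finset.sum_eq_zero fun i _ => ?_
      rw [(bump_out c ρ hρ a ha').2 i, zero_mul]
    · symm
      refine Finset.sum_subset Finset.inter_subset_left fun a haS ha => ?_
      exact hR0 a fun h => ha (Finset.mem_inter.2 ⟨haS, h⟩)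
  have hRsum : |∑ a ∈ S ∩ bx c (ρ + K), R a| ≤ 4 * C₀ * (2 * K + 3) ^ d * (ρ : ℝ) ^ (d - 2) := by
    calc |∑ a ∈ S ∩ bx c (ρ + K), R a| ≤ ∑ a ∈ S ∩ bx c (ρ + K), |R a| :=
          Finset.abs_sum_le_sum_abs _ _
      _ ≤ ∑ a ∈ bx c (ρ + K), |R a| :=
          Finset.sum_le_sum_of_subset_of_nonneg Finset.inter_subset_right fun _ _ _ =>
            abs_nonneg _
      _ ≤ ∑ _a ∈ bx c (ρ + K), 4 * C₀ / (ρ : ℝ) ^ 2 := Finset.sum_le_sum fun a _ => hRle a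
      _ = ((2 * ((ρ + K : ℕ) : ℝ) + 1) ^ d) * (4 * C₀ / (ρ : ℝ) ^ 2) := by
          rw [Finset.sum_const, mc_bx_card, nsmul_eq_mul]
          push_cast
          ring
      _ ≤ (((2 * K + 3) * (ρ : ℝ)) ^ d) * (4 * C₀ / (ρ : ℝ) ^ 2) := by
          refine mul_le_mul_of_nonneg_right ?_ (by positivity)
          refine pow_le_pow_left₀ (by positivity) ?_ d
          push_cast
          have hK : (0 : ℝ) ≤ (K : ℝ) := Nat.cast_nonneg K
          nlinarith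
      _ = 4 * C₀ * (2 * K + 3) ^ d * (ρ : ℝ) ^ (d - 2) := by
          obtain ⟨e, rfl⟩ : ∃ e, d = e + 2 := ⟨d - 2, by omega⟩
          rw [Nat.add_sub_cancel, mul_pow, pow_add (ρ : ℝ) e 2]
          field_simp
  have hmain : p v * ((1 / 4) * (((bx c n).filter fun y =>
      ¬ (y - v ∈ S ↔ f₁⁻¹ y ∈ S)).card : ℝ)) ≤
      |mainA S c ρ s f₁ f₂| + 4 * C₀ * (2 * K + 3) ^ d * (ρ : ℝ) ^ (d - 2) := by
    calc p v * ((1 / 4) * (((bx c n).filter fun y =>
          ¬ (y - v ∈ S ↔ f₁⁻¹ y ∈ S)).card : ℝ)) ≤ p v * (t * T v) :=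
          mul_le_mul_of_nonneg_left hlow (hp v hv).le
      _ ≤ ∑ u ∈ D, p u * (t * T u) :=
          Finset.single_le_sum (f := fun u => p u * (t * T u))
            (fun u hu => mul_nonneg (hp u hu).le (hnonneg u hu)) hv
      _ = t * ∑ u ∈ D, p u * T u := by
          rw [Finset.mul_sum]
          refine Finset.sum_congr rfl fun u _ => ?_
          ring
      _ ≤ |t * ∑ u ∈ D, p u * T u| := le_abs_self _
      _ = |∑ u ∈ D, p u * T u| := by rw [abs_mul, htabs, one_mul]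
      _ ≤ |mainA S c ρ s f₁ f₂| + |∑ a ∈ S ∩ bx c (ρ + K), R a| := by
          rw [hsum]
          exact abs_add_le _ _
      _ ≤ _ := by gcongr
  linarith

end DE
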