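import Pool.Agent.Helper10.DE.RC.MonoCount
import Pool.Agent.Helper10.DE.RC.MainA
import Pool.Agent.Helper10.DE.RC.ChgLe

/-!
# DE VIII.9  The perimeter of a closed set is small

PROOF.  Let `p` be the weights of `IntPt D s`, `p₀ = min p > 0` (`D` is nonempty since `∑ p = 1`), so
`|s i| ≤ K`.  Let `a = 1 + K + 2 K L`.
(1) General step: if `Mono σ S D f_i (bx c ρ)`, and `n₁ ≥ 1`, `2 d (n₁ a)^2 ≤ ρ^2`, then by
`mono_count` (with `n = n₁ + K + 2KL ≤ n₁ a`) and `chg_le`: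
`∑_j chg S (bx c n₁) (ev j) ≤ C₁ (|mainA S c ρ| + ρ^(d-2))`, `C₁ = C₁(d, K, L, p₀)` (choose
`M = floor (4 (|mainA| + C ρ^(d-2))/p₀)`).
(2) Radii: `ρ₂ = 2 d a n`, `ρ₁ = 2 d a (2 ρ₂)` (note `ρ₂ + 1 ≤ 2 ρ₂`), `K' = 8 d² a²`, so `ρ₁ = K' n` and
`2 d (n a)² ≤ ρ₂²`, `2 d (2ρ₂ a)² ≤ ρ₁²`; all boxes are inside `bx c (K' n)`; `Mono` and the number
of bad points are monotone in the box.
(3) A priori: step (1) with `n₁ = ρ₂ + 1`, `ρ = ρ₁`, and `mainA_triv`: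
`∑_j chg S (bx c (ρ₂+1)) (ev j) ≤ C₁ (C ρ₁^(d-1) + ρ₁^(d-2)) ≤ C₃ n^(d-1)`.
(4) `mainA_le` at `ρ = ρ₂`: `|mainA S c ρ₂| ≤ (C/ρ₂)(ε ρ₂^d + bad + m C₃ n^(d-1)) + C m ρ₂^(d-2)
 ≤ C₄ (ε n^(d-1) + bad/n + m n^(d-2))` (`n^(d-1)/n = n^(d-2)`, `d ≥ 2`).
(5) Step (1) with `n₁ = n`, `ρ = ρ₂`; `ρ₂^(d-2) ≤ C m n^(d-2)` since `m ≥ 1`.
-/

noncomputable section

namespace DE

variable {d : ℕ}

namespace PerimAux

theorem bx_mono (c : Site d) {n n' : ℕ} (h : n ≤ n') : bx c n ⊆ bx c n' := by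
  intro x hx
  rw [bx, Fintype.mem_piFinset] at hx ⊢
  intro i
  have h1 := hx i
  rw [Finset.mem_Icc] at h1 ⊢
  have h' : (n : ℤ) ≤ n' := by exact_mod_cast h
  constructor
  · linarith [h1.1]
  · linarith [h1.2]

theorem mono_mono {σ : Bool} {S D : Finset (Site d)} {f : Equiv.Perm (Site d)}
    {Q Q' : Finset (Site d)} (h : Q ⊆ Q') (hm : Mono σ S D f Q') : Mono σ S D f Q :=
  fun y hy => hm y (h hy)

theorem s_le (K : ℕ) (D : Finset (Site d)) (hK : BdK D K) (p : Site d → ℝ)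
    (hp : ∀ v ∈ D, 0 < p v) (h1 : ∑ v ∈ D, p v = 1) (s : Fin d → ℝ)
    (hs : ∑ v ∈ D, p v • rv v = s) (i : Fin d) : |s i| ≤ K := by
  rw [← hs, Finset.sum_apply]
  calc |∑ v ∈ D, (p v • rv v) i| ≤ ∑ v ∈ D, |(p v • rv v) i| := Finset.abs_sum_le_sum_abs _ _
    _ ≤ ∑ v ∈ D, p v * K := by
        refine Finset.sum_le_sum fun v hv => ?_
        rw [Pi.smul_apply, smul_eq_mul, abs_mul, abs_of_pos (hp v hv)]
        refine mul_le_mul_of_nonneg_left ?_ (hp v hv).le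
        have h2 := hK.2 v hv i
        have h3 : ((|v i| : ℤ) : ℝ) ≤ ((K : ℤ) : ℝ) := Int.cast_le.2 h2
        rw [Int.cast_abs, Int.cast_natCast] at h3
        exact h3
    _ = K := by rw [← Finset.sum_mul, h1, one_mul]

theorem nat1 (n₁ K L : ℕ) (hn₁ : 1 ≤ n₁) : n₁ + K + 2 * K * L ≤ n₁ * (1 + K + 2 * K * L) := by
  have h := Nat.mul_le_mul hn₁ (le_refl (K + 2 * K * L))
  have h2 : n₁ * (1 + K + 2 * K * L) = n₁ + n₁ * (K + 2 * K * L) := by ring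
  rw [h2]
  omega

theorem nat2 (d a N : ℕ) (hd : 2 ≤ d) : 2 * d * (N * a) ^ 2 ≤ (2 * d * a * N) ^ 2 := by
  have h1 : (2 * d * a * N) ^ 2 = 2 * d * (2 * d) * (N * a) ^ 2 := by ring
  rw [h1]
  have h2 : 2 * d * 1 ≤ 2 * d * (2 * d) := Nat.mul_le_mul_left _ (by omega)
  rw [mul_one] at h2
  exact Nat.mul_le_mul_right _ h2

theorem real1 {C1 A1 Cl P A2 A3 E1 E2 E3 X Y : ℝ} (hC1 : 0 ≤ C1) (hA1 : 0 ≤ A1) (hCl : 0 ≤ Cl)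
    (hP : 0 ≤ P) (hA2 : 0 ≤ A2) (hA3 : 0 ≤ A3) (hE1 : 0 ≤ E1) (hE2 : 0 ≤ E2) (hE3 : 0 ≤ E3)
    (hX : X ≤ A1 * E1 + Cl * E2 + (P + A2) * E3) (hY : Y ≤ A3 * E3) :
    C1 * (X + Y) ≤ (C1 * (A1 + Cl + (P + A2 + A3)) + 1) * (E1 + E2 + E3) := by
  have t1 : 0 ≤ A1 * (E2 + E3) := by positivity
  have t2 : 0 ≤ Cl * (E1 + E3) := by positivity
  have t3 : 0 ≤ (P + A2 + A3) * (E1 + E2) := by positivity
  have h8 : X + Y ≤ (A1 + Cl + (P + A2 + A3)) * (E1 + E2 + E3) := by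
    have e : (A1 + Cl + (P + A2 + A3)) * (E1 + E2 + E3) =
        (A1 * E1 + Cl * E2 + (P + A2) * E3 + A3 * E3) + A1 * (E2 + E3) + Cl * (E1 + E3) +
          (P + A2 + A3) * (E1 + E2) := by ring
    rw [e]
    linarith
  have h9 := mul_le_mul_of_nonneg_left h8 hC1
  have h10 : 0 ≤ E1 + E2 + E3 := by positivity
  calc C1 * (X + Y) ≤ C1 * ((A1 + Cl + (P + A2 + A3)) * (E1 + E2 + E3)) := h9
    _ ≤ C1 * ((A1 + Cl + (P + A2 + A3)) * (E1 + E2 + E3)) + (E1 + E2 + E3) := by linarith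
    _ = _ := by ring

theorem real2 (d : ℕ) (hd : 2 ≤ d) {b n Cl ε bad bad2 C3 m T X : ℝ} (hb : 1 ≤ b) (hn : 1 ≤ n)
    (hCl : 0 ≤ Cl) (hC3 : 0 ≤ C3) (hm : 0 ≤ m) (hbad2 : 0 ≤ bad2) (hbad : bad2 ≤ bad)
    (hT0 : 0 ≤ T) (hT : T ≤ C3 * n ^ (d - 1))
    (h : X ≤ Cl / (b * n) * (ε * (b * n) ^ d + bad2 + m * T) + Cl * m * (b * n) ^ (d - 2)) :
    X ≤ Cl * b ^ (d - 1) * (ε * n ^ (d - 1)) + Cl * (bad / n) +
      (Cl * C3 + Cl * b ^ (d - 2)) * (m * n ^ (d - 2)) := by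
  have hb0 : 0 < b := by linarith
  have hn0 : 0 < n := by linarith
  have hle : Cl / (b * n) ≤ Cl / n :=
    div_le_div_of_nonneg_left hCl hn0 (le_mul_of_one_le_left hn0.le hb)
  have e1 : Cl / (b * n) * (ε * (b * n) ^ d) = Cl * b ^ (d - 1) * (ε * n ^ (d - 1)) := by
    obtain ⟨e, rfl⟩ : ∃ e, d = e + 2 := ⟨d - 2, by omega⟩
    have h1 : e + 2 - 1 = e + 1 := by omega
    rw [h1]
    field_simp
    ring
  have e2 : Cl / (b * n) * bad2 ≤ Cl * (bad / n) := by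
    calc _ ≤ Cl / n * bad := mul_le_mul hle hbad hbad2 (by positivity)
      _ = Cl * (bad / n) := by ring
  have e3 : Cl / (b * n) * (m * T) ≤ Cl * C3 * (m * n ^ (d - 2)) := by
    calc Cl / (b * n) * (m * T) ≤ Cl / n * (m * (C3 * n ^ (d - 1))) :=
          mul_le_mul hle (mul_le_mul_of_nonneg_left hT hm) (by positivity) (by positivity)
      _ = Cl * C3 * (m * n ^ (d - 2)) := by
          have h1 : n ^ (d - 1) = n ^ (d - 2) * n := by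
            rw [← pow_succ]; congr 1; omega
          rw [h1]
          field_simp
  have e4 : Cl * m * (b * n) ^ (d - 2) = Cl * b ^ (d - 2) * (m * n ^ (d - 2)) := by
    rw [mul_pow]; ring
  rw [mul_add, mul_add, e4, e1] at h
  have e5 : (Cl * C3 + Cl * b ^ (d - 2)) * (m * n ^ (d - 2)) =
    Cl * C3 * (m * n ^ (d - 2)) + Cl * b ^ (d - 2) * (m * n ^ (d - 2)) := by ring
  rw [e5]
  linarith

theorem real3 (d : ℕ) (hd : 2 ≤ d) {C1 Ct Cm K' n X : ℝ} (hC1 : 0 ≤ C1) (hCm : 0 ≤ Cm)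
    (hK' : 1 ≤ K') (hn : 1 ≤ n) (h : X ≤ Ct * (K' * n) ^ (d - 1)) :
    C1 * (X + Cm * (K' * n) ^ (d - 2)) ≤ C1 * ((Ct + Cm) * K' ^ (d - 1)) * n ^ (d - 1) := by
  have h4 : (1 : ℝ) ≤ K' * n := one_le_mul_of_one_le_of_one_le hK' hn
  have h5 : (K' * n) ^ (d - 2) ≤ (K' * n) ^ (d - 1) := pow_le_pow_right₀ h4 (by omega)
  rw [mul_assoc C1]
  refine mul_le_mul_of_nonneg_left ?_ hC1
  calc X + Cm * (K' * n) ^ (d - 2) ≤ Ct * (K' * n) ^ (d - 1) + Cm * (K' * n) ^ (d - 1) :=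
        add_le_add h (mul_le_mul_of_nonneg_left h5 hCm)
    _ = (Ct + Cm) * K' ^ (d - 1) * n ^ (d - 1) := by rw [mul_pow]; ring

theorem real4 (d : ℕ) {Cm b n m : ℝ} (hCm : 0 ≤ Cm) (hb : 0 ≤ b) (hn : 0 ≤ n) (hm : 1 ≤ m) :
    Cm * (b * n) ^ (d - 2) ≤ Cm * b ^ (d - 2) * (m * n ^ (d - 2)) := by
  rw [mul_pow, ← mul_assoc]
  refine mul_le_mul_of_nonneg_left ?_ (by positivity)
  exact le_mul_of_one_le_left (by positivity) hm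

/-- the general step -/
theorem key (hd : 2 ≤ d) (K L : ℕ) (D : Finset (Site d)) (hL : Gen D L) (hK : BdK D K)
    (p : Site d → ℝ) (p0 : ℝ) (hp0 : 0 < p0) (hmin : ∀ v ∈ D, p0 ≤ p v)
    (s : Fin d → ℝ) (Cm : ℝ) (hCm : 0 < Cm) (f₁ f₂ : Equiv.Perm (Site d))
    (S : Finset (Site d)) (c : Site d) (ρ n₁ : ℕ)
    (hmc : ∀ v ∈ D, p v * (((bx c (n₁ + K + 2 * K * L)).filter
      fun y => ¬ (y - v ∈ S ↔ f₁⁻¹ y ∈ S)).card : ℝ) ≤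
      4 * (|mainA S c ρ s f₁ f₂| + Cm * (ρ : ℝ) ^ (d - 2))) :
    ∑ j, (chg S (bx c n₁) (ev j) : ℝ) ≤
      (d : ℝ) * (2 * L * (4 / p0)) * (|mainA S c ρ s f₁ f₂| + Cm * (ρ : ℝ) ^ (d - 2)) := by
  obtain ⟨Y, hY⟩ : ∃ Y : ℝ, Y = |mainA S c ρ s f₁ f₂| + Cm * (ρ : ℝ) ^ (d - 2) := ⟨_, rfl⟩
  have hY0 : 0 ≤ Y := by
    rw [hY]
    exact add_nonneg (abs_nonneg _) (by positivity)
  rw [← hY] at hmc ⊢
  have hX0 : 0 ≤ 4 / p0 * Y := by positivity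
  have hN : ∀ v ∈ D, ((bx c (n₁ + K + 2 * K * L)).filter
      fun y => ¬ (y - v ∈ S ↔ f₁⁻¹ y ∈ S)).card ≤ ⌊4 / p0 * Y⌋₊ := by
    intro v hv
    apply Nat.le_floor
    have h2 := (mul_le_mul_of_nonneg_right (hmin v hv)
      (Nat.cast_nonneg (α := ℝ) ((bx c (n₁ + K + 2 * K * L)).filter
        fun y => ¬ (y - v ∈ S ↔ f₁⁻¹ y ∈ S)).card)).trans (hmc v hv)
    rw [div_mul_eq_mul_div, le_div_iff₀ hp0, mul_comm]
    exact h2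
  have hch : ∀ j, (chg S (bx c n₁) (ev j) : ℝ) ≤ 2 * L * (4 / p0 * Y) := by
    intro j
    have h1 := chg_le K L D hL hK f₁ S c n₁ ⌊4 / p0 * Y⌋₊ hN j
    have h2 : (chg S (bx c n₁) (ev j) : ℝ) ≤ ((2 * L * ⌊4 / p0 * Y⌋₊ : ℕ) : ℝ) := by
      exact_mod_cast h1
    refine h2.trans ?_
    push_cast
    exact mul_le_mul_of_nonneg_left (Nat.floor_le hX0) (by positivity)
  calc ∑ j, (chg S (bx c n₁) (ev j) : ℝ) ≤ ∑ _j : Fin d, 2 * L * (4 / p0 * Y) :=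
        Finset.sum_le_sum fun j _ => hch j
    _ = (d : ℝ) * (2 * L * (4 / p0)) * Y := by
        rw [Finset.sum_const, Finset.card_univ, Fintype.card_fin, nsmul_eq_mul]
        ring

end PerimAux

open PerimAux in
theorem perim (hd : 2 ≤ d) (K L : ℕ) (D : Finset (Site d)) (hL : Gen D L) (hK : BdK D K)
    (s : Fin d → ℝ) (hs : IntPt D s) : ∃ (C : ℝ) (K' : ℕ), 0 < C ∧ 1 ≤ K' ∧
    ∀ (σ : Bool) (f₁ f₂ : Equiv.Perm (Site d)), IsD D f₁ → IsD D f₂ →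
    ∀ (S : Finset (Site d)) (c : Site d) (n : ℕ), 1 ≤ n →
      Mono σ S D f₁ (bx c (K' * n)) → Mono σ S D f₂ (bx c (K' * n)) →
    ∀ (m : ℕ), 1 ≤ m → ∀ ε : ℝ, 0 ≤ ε →
    ∑ j, (chg S (bx c n) (ev j) : ℝ) ≤ C * (ε * (n : ℝ) ^ (d - 1)
        + (((bx c (K' * n)).filter fun x => ε * (m : ℝ) ^ d < ‖defect f₁ f₂ s m x‖).card : ℝ) / n
        + m * (n : ℝ) ^ (d - 2)) := by
  obtain ⟨p, hp, hp1, hps⟩ := hs
  have hsK : ∀ i, |s i| ≤ K := s_le K D hK p hp hp1 s hps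
  have hDne : D.Nonempty := by
    by_contra hD
    rw [Finset.not_nonempty_iff_eq_empty] at hD
    rw [hD, Finset.sum_empty] at hp1
    exact zero_ne_one hp1
  obtain ⟨v0, hv0, hmin⟩ := D.exists_min_image p hDne
  obtain ⟨p0, hp0def⟩ : ∃ p0 : ℝ, p0 = p v0 := ⟨_, rfl⟩
  have hp0 : 0 < p0 := hp0def ▸ hp v0 hv0
  rw [← hp0def] at hmin
  obtain ⟨Cm, hCm, hmc⟩ := mono_count hd K
  obtain ⟨Ct, hCt, hmt⟩ := mainA_triv hd K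
  obtain ⟨Cl, hCl, hml⟩ := mainA_le hd K
  obtain ⟨a, ha⟩ : ∃ a : ℕ, a = 1 + K + 2 * K * L := ⟨_, rfl⟩
  have ha1 : 1 ≤ a := by omega
  obtain ⟨C1, hC1⟩ : ∃ C1 : ℝ, C1 = (d : ℝ) * (2 * L * (4 / p0)) := ⟨_, rfl⟩
  have hC10 : 0 ≤ C1 := by rw [hC1]; positivity
  have hkey : ∀ (σ : Bool) (f₁ f₂ : Equiv.Perm (Site d)), IsD D f₁ → IsD D f₂ →
      ∀ (S : Finset (Site d)) (c : Site d) (ρ n₁ : ℕ), 1 ≤ ρ → 1 ≤ n₁ →
      2 * d * (n₁ * a) ^ 2 ≤ ρ ^ 2 → Mono σ S D f₁ (bx c ρ) → Mono σ S D f₂ (bx c ρ) →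
      ∑ j, (chg S (bx c n₁) (ev j) : ℝ) ≤
        C1 * (|mainA S c ρ s f₁ f₂| + Cm * (ρ : ℝ) ^ (d - 2)) := by
    intro σ f₁ f₂ hf₁ hf₂ S c ρ n₁ hρ hn₁ hcond hm₁ hm₂
    have hn' : n₁ + K + 2 * K * L ≤ n₁ * a := by rw [ha]; exact nat1 n₁ K L hn₁
    have hcond' : 2 * d * (n₁ + K + 2 * K * L) ^ 2 ≤ ρ ^ 2 :=
      (Nat.mul_le_mul_left _ (Nat.pow_le_pow_left hn' 2)).trans hcond
    rw [hC1]
    exact key hd K L D hL hK p p0 hp0 hmin s Cm hCm f₁ f₂ S c ρ n₁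
      (fun v hv => hmc D hK p hp hp1 s hps σ f₁ f₂ hf₁ hf₂ S c ρ (n₁ + K + 2 * K * L) hρ hcond'
        hm₁ hm₂ v hv)
  obtain ⟨b, hb⟩ : ∃ b : ℕ, b = 2 * d * a := ⟨_, rfl⟩
  have hb1 : 1 ≤ b := by
    rw [hb]
    exact Nat.mul_pos (by omega) ha1
  obtain ⟨K', hK'⟩ : ∃ K' : ℕ, K' = b * (2 * b) := ⟨_, rfl⟩
  have hK'1 : 1 ≤ K' := hK' ▸ Nat.mul_pos hb1 (by omega)
  have hbK' : b ≤ K' := by
    rw [hK']
    exact Nat.le_mul_of_pos_right b (by omega)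
  obtain ⟨C3, hC3⟩ : ∃ C3 : ℝ, C3 = C1 * ((Ct + Cm) * (K' : ℝ) ^ (d - 1)) := ⟨_, rfl⟩
  have hC30 : 0 ≤ C3 := by rw [hC3]; positivity
  have hcondgen : ∀ N : ℕ, 2 * d * (N * a) ^ 2 ≤ (b * N) ^ 2 := by
    intro N
    rw [hb]
    exact nat2 d a N hd
  have hC4 : 0 ≤ C1 * (Cl * (b : ℝ) ^ (d - 1) + Cl + (Cl * C3 + Cl * (b : ℝ) ^ (d - 2) +
    Cm * (b : ℝ) ^ (d - 2))) := by positivity
  refine ⟨C1 * (Cl * (b : ℝ) ^ (d - 1) + Cl + (Cl * C3 + Cl * (b : ℝ) ^ (d - 2) +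
    Cm * (b : ℝ) ^ (d - 2))) + 1, K', by linarith, hK'1, ?_⟩
  intro σ f₁ f₂ hf₁ hf₂ S c n hn hm₁ hm₂ m hm ε hε
  have hnR : (1 : ℝ) ≤ n := by exact_mod_cast hn
  have hnpos : (0 : ℝ) < n := by linarith
  have hbR : (1 : ℝ) ≤ b := by exact_mod_cast hb1
  have hmR : (1 : ℝ) ≤ m := by exact_mod_cast hm
  have hKR : (1 : ℝ) ≤ K' := by exact_mod_cast hK'1
  have hbn1 : 1 ≤ b * n := Nat.mul_pos hb1 hn
  have hcast1 : ((K' * n : ℕ) : ℝ) = (K' : ℝ) * n := by push_cast; rfl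
  have hcast2 : ((b * n : ℕ) : ℝ) = (b : ℝ) * n := by push_cast; rfl
  -- step 3
  have hr1 : K' * n = b * (2 * (b * n)) := by rw [hK']; ring
  have h3 : ∑ j, (chg S (bx c (b * n + 1)) (ev j) : ℝ) ≤ C3 * (n : ℝ) ^ (d - 1) := by
    have hc1 : 2 * d * ((b * n + 1) * a) ^ 2 ≤ (K' * n) ^ 2 := by
      rw [hr1]
      refine le_trans ?_ (hcondgen (2 * (b * n)))
      exact Nat.mul_le_mul_left _ (Nat.pow_le_pow_left (Nat.mul_le_mul_right _ (by omega)) 2)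
    have h1 := hkey σ f₁ f₂ hf₁ hf₂ S c (K' * n) (b * n + 1) (Nat.mul_pos hK'1 hn) (by omega)
      hc1 hm₁ hm₂
    have h2 := hmt D hK s hsK f₁ f₂ hf₁ hf₂ S c (K' * n) (Nat.mul_pos hK'1 hn)
    rw [hcast1] at h1 h2
    rw [hC3]
    exact h1.trans (real3 d hd hC10 hCm.le hKR hnR h2)
  have hs0 : (0 : ℝ) ≤ ∑ j, (chg S (bx c (b * n + 1)) (ev j) : ℝ) :=
    Finset.sum_nonneg fun _ _ => Nat.cast_nonneg _
  -- step 4
  have hsub : bx c (b * n) ⊆ bx c (K' * n) := bx_mono c (Nat.mul_le_mul_right _ hbK')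
  have hbad2 : (((bx c (b * n)).filter
      fun x => ε * (m : ℝ) ^ d < ‖defect f₁ f₂ s m x‖).card : ℝ) ≤
      (((bx c (K' * n)).filter
        fun x => ε * (m : ℝ) ^ d < ‖defect f₁ f₂ s m x‖).card : ℝ) :=
    Nat.cast_le.2 (Finset.card_le_card (Finset.filter_subset_filter _ hsub))
  have h1 := hml D hK s hsK f₁ f₂ hf₁ hf₂ S c (b * n) hbn1 m hm ε hε
  rw [hcast2] at h1
  have h4 := real2 d hd hbR hnR hCl.le hC30 (Nat.cast_nonneg m) (Nat.cast_nonneg _) hbad2 hs0 h3 h1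
  -- step 5
  have hm₁' : Mono σ S D f₁ (bx c (b * n)) := mono_mono hsub hm₁
  have hm₂' : Mono σ S D f₂ (bx c (b * n)) := mono_mono hsub hm₂
  have h5 := hkey σ f₁ f₂ hf₁ hf₂ S c (b * n) n hbn1 hn (hcondgen n) hm₁' hm₂'
  rw [hcast2] at h5
  refine h5.trans ?_
  exact real1 hC10 (by positivity) hCl.le (by positivity) (by positivity) (by positivity)
    (by positivity) (by positivity) (by positivity) h4
    (real4 d hCm.le (by linarith) hnpos.le hmR)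

end DE
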