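import Pool.Agent.Helper10.DE.RC.ReachDet

/-!
# DE VIII.12  The reachability lemma

PROOF.  Let `(C, K')` be from `reach_det`.  Given `w, η > 0, R₀`.  Let `A ∈ ℕ` with
`A ≥ ‖w‖ + K' η + 2`.  For `R ≥ 1`, `n ≤ η R` and `|c i + R w i| ≤ 1`: `bx c (K' n) ⊆ bx 0 (A R)`.
Choose `ε > 0` with `C ε (1 + (4 A/η)^d) ≤ 1/3`, and `m` from `Typ` for this `ε`.  Choose `R₁ ≥ R₀`
large: `η R₁ ≥ 2`, `η R₁ / 2 > 3 C m`, `R₁ ≥ 1`.  Apply `Typ` with lower bound `A (R₁ + 1)`: get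
`R' ≥ A (R₁ + 1)` with at most `ε R'^d` bad points in `bx 0 R'`.  Put `R = R' / A` (natural division):
`R ≥ R₁`, `A R ≤ R' ≤ A (R + 1) ≤ 2 A R`.  Put `n = ⌊η R⌋₊`: `n ≤ η R ≤ 2 n` as `η R ≥ 1`.
Bad points in `bx c (K' n) ⊆ bx 0 (A R) ⊆ bx 0 R'`: at most `ε (2 A R)^d ≤ ε (4 A/η)^d n^d`.  So
`C (ε n^d + bad + m n^(d-1)) ≤ n^d/3 + n^d/3·(strict) < n^d`, using `C m n^(d-1) < n^d/3`
(`n ≥ η R/2 > 3 C m`).  Apply `reach_det`.
-/

noncomputable section

namespace DE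

variable {d : ℕ}

theorem rc (hd : 2 ≤ d) (K L : ℕ) (D : Finset (Site d)) (hL : Gen D L) (hK : BdK D K)
    (s : Fin d → ℝ) (hs : IntPt D s) : ∃ K' : ℕ, 1 ≤ K' ∧
    ∀ (f₁ f₂ : Equiv.Perm (Site d)), IsD D f₁ → IsD D f₂ → Typ s f₁ f₂ →
      RCprop D K' f₁ f₂ := by
  classical
  obtain ⟨C, K', hC, hK', hreach⟩ := reach_det hd K L D hL hK s hs
  refine ⟨K', hK', ?_⟩
  intro f₁ f₂ hf₁ hf₂ htyp w η hη R₀
  -- the constant `A`
  obtain ⟨A, hA⟩ := exists_nat_ge (‖w‖ + K' * η + 2)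
  have hw0 : 0 ≤ ‖w‖ := norm_nonneg w
  have hKη : 0 ≤ (K' : ℝ) * η := by positivity
  have hA2 : (2 : ℝ) ≤ A := by linarith
  have hA1 : 1 ≤ A := by
    have h1 : (1 : ℝ) ≤ A := by linarith
    exact_mod_cast h1
  -- the constant `ε`
  set B : ℝ := (4 * (A : ℝ) / η) ^ d with hB
  have hB0 : 0 ≤ B := by positivity
  set ε : ℝ := 1 / (3 * C * (1 + B)) with hε
  have hε0 : 0 < ε := by positivity
  have hεC : C * ε * (1 + B) = 1 / 3 := by
    rw [hε]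
    have h1 : (1 + B) ≠ 0 := by positivity
    field_simp
  obtain ⟨m, hm, htm⟩ := htyp ε hε0
  -- the constant `R₁`
  obtain ⟨R₂, hR₂⟩ := exists_nat_gt ((2 + 6 * C * m) / η)
  set R₁ : ℕ := max (max R₀ 1) R₂ with hR₁
  have hR₁0 : R₀ ≤ R₁ := (le_max_left _ _).trans (le_max_left _ _)
  have hR₁1 : 1 ≤ R₁ := (le_max_right _ _).trans (le_max_left _ _)
  have hR₁2 : (R₂ : ℝ) ≤ R₁ := by exact_mod_cast le_max_right (max R₀ 1) R₂
  have hηR₁ : 2 + 6 * C * m < η * R₁ := by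
    rw [div_lt_iff₀ hη] at hR₂
    nlinarith
  obtain ⟨R', hR', hbad⟩ := htm (A * (R₁ + 1))
  set R : ℕ := R' / A with hR
  have hRR₁ : R₁ ≤ R := by
    have h1 : R₁ + 1 ≤ R' / A := by
      rw [Nat.le_div_iff_mul_le (by omega), mul_comm]
      exact hR'
    omega
  have hAR : A * R ≤ R' := Nat.mul_div_le R' A
  have hAR2 : R' ≤ 2 * A * R := by
    have h1 : R' < A * (R + 1) := by
      have h2 := Nat.lt_mul_div_succ R' (show 0 < A by omega)
      simpa [hR] using h2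
    have h2 : 1 ≤ R := by omega
    nlinarith
  have hR1' : (R₁ : ℝ) ≤ R := by exact_mod_cast hRR₁
  have hR1 : (1 : ℝ) ≤ R := by
    have h1 : 1 ≤ R := by omega
    exact_mod_cast h1
  have hηR : 2 + 6 * C * m < η * R := by nlinarith
  have hCm : 0 ≤ C * m := by positivity
  set n : ℕ := ⌊η * R⌋₊ with hn
  have hn1 : (n : ℝ) ≤ η * R := Nat.floor_le (by positivity)
  have hn2 : η * R < n + 1 := Nat.lt_floor_add_one _
  have hn3 : (1 : ℝ) < n := by nlinarith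
  have hn4 : 1 ≤ n := by
    have h1 : (1 : ℝ) ≤ n := hn3.le
    exact_mod_cast h1
  have hn5 : η * R ≤ 2 * n := by linarith
  refine ⟨R, hR₁0.trans hRR₁, n, hn1, hn5, ?_⟩
  intro c hc p hp q hq
  refine hreach f₁ f₂ hf₁ hf₂ c n hn4 m hm ε hε0.le ?_ p hp q hq
  -- the box around `c` is in the large box
  have hsub : bx c (K' * n) ⊆ bx (0 : Site d) R' := by
    intro x hx
    simp only [bx, Fintype.mem_piFinset, Finset.mem_Icc] at hx ⊢
    intro i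
    obtain ⟨h1, h2⟩ := hx i
    have h1' : ((c i : ℝ) - K' * n) ≤ x i := by exact_mod_cast h1
    have h2' : (x i : ℝ) ≤ c i + K' * n := by exact_mod_cast h2
    have h3 := abs_le.1 (hc i)
    have h4 : |w i| ≤ ‖w‖ := by
      rw [← Real.norm_eq_abs]
      exact norm_le_pi_norm w i
    have h5 := abs_le.1 h4
    have h6 : (K' : ℝ) * n ≤ K' * η * R := by
      have := mul_le_mul_of_nonneg_left hn1 (Nat.cast_nonneg (α := ℝ) K')
      linarith
    have h7 : (R : ℝ) * w i ≤ R * ‖w‖ := mul_le_mul_of_nonneg_left h5.2 (by linarith)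
    have h8 : -(R * ‖w‖) ≤ (R : ℝ) * w i := by
      have := mul_le_mul_of_nonneg_left h5.1 (show (0 : ℝ) ≤ R by linarith)
      linarith
    have h9 : (R : ℝ) * ‖w‖ + K' * η * R + 1 ≤ A * R := by
      have := mul_le_mul_of_nonneg_right hA (show (0 : ℝ) ≤ R by linarith)
      nlinarith
    have h10 : (A : ℝ) * R ≤ R' := by exact_mod_cast hAR
    have hup : (x i : ℝ) ≤ R' := by linarith [h3.2]
    have hlo : -(R' : ℝ) ≤ x i := by linarith [h3.1]
    have hup' : x i ≤ (R' : ℤ) := by exact_mod_cast hup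
    have hlo' : -(R' : ℤ) ≤ x i := by exact_mod_cast hlo
    constructor
    · simpa using hlo'
    · simpa using hup'
  have hcnt : ((((bx c (K' * n)).filter fun x =>
      ε * (m : ℝ) ^ d < ‖defect f₁ f₂ s m x‖).card : ℕ) : ℝ) ≤ ε * B * (n : ℝ) ^ d := by
    have h1 : ((bx c (K' * n)).filter fun x => ε * (m : ℝ) ^ d < ‖defect f₁ f₂ s m x‖).card ≤
        ((bx (0 : Site d) R').filter fun x =>
          ε * (m : ℝ) ^ d < ‖defect f₁ f₂ s m x‖).card :=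
      Finset.card_le_card (Finset.filter_subset_filter _ hsub)
    have h2 : ((((bx c (K' * n)).filter fun x =>
        ε * (m : ℝ) ^ d < ‖defect f₁ f₂ s m x‖).card : ℕ) : ℝ) ≤
        ((((bx (0 : Site d) R').filter fun x =>
          ε * (m : ℝ) ^ d < ‖defect f₁ f₂ s m x‖).card : ℕ) : ℝ) := by exact_mod_cast h1
    refine h2.trans (hbad.trans ?_)
    have h3 : (R' : ℝ) ≤ 4 * (A : ℝ) / η * n := by
      have h4 : (R' : ℝ) ≤ 2 * A * R := by exact_mod_cast hAR2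
      have h5 : (R : ℝ) ≤ 2 * n / η := by
        rw [le_div_iff₀ hη]
        linarith
      calc (R' : ℝ) ≤ 2 * A * R := h4
        _ ≤ 2 * A * (2 * n / η) := mul_le_mul_of_nonneg_left h5 (by positivity)
        _ = 4 * (A : ℝ) / η * n := by ring
    have h4 : (R' : ℝ) ^ d ≤ B * (n : ℝ) ^ d := by
      rw [hB, ← mul_pow]
      exact pow_le_pow_left₀ (Nat.cast_nonneg _) h3 d
    calc ε * (R' : ℝ) ^ d ≤ ε * (B * (n : ℝ) ^ d) := mul_le_mul_of_nonneg_left h4 hε0.le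
      _ = ε * B * (n : ℝ) ^ d := by ring
  have hnd : (n : ℝ) ^ d = (n : ℝ) ^ (d - 1) * n := by
    rw [← pow_succ]
    congr 1
    omega
  have hnp : (0 : ℝ) < (n : ℝ) ^ (d - 1) := by positivity
  have hnp' : (0 : ℝ) < (n : ℝ) ^ d := by positivity
  have h3C : 3 * (C * m) < n := by nlinarith
  have hlast : C * (m * (n : ℝ) ^ (d - 1)) < (n : ℝ) ^ d / 3 := by
    rw [hnd]
    nlinarith
  calc C * (ε * (n : ℝ) ^ d
        + (((bx c (K' * n)).filter fun x => ε * (m : ℝ) ^ d < ‖defect f₁ f₂ s m x‖).card : ℝ)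
        + m * (n : ℝ) ^ (d - 1))
      ≤ C * (ε * (n : ℝ) ^ d + ε * B * (n : ℝ) ^ d + m * (n : ℝ) ^ (d - 1)) :=
        mul_le_mul_of_nonneg_left (by linarith) hC.le
    _ = (C * ε * (1 + B)) * (n : ℝ) ^ d + C * (m * (n : ℝ) ^ (d - 1)) := by ring
    _ < 1 / 3 * (n : ℝ) ^ d + (n : ℝ) ^ d / 3 := by rw [hεC]; linarith
    _ ≤ (n : ℝ) ^ d := by linarith

end DE
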