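import Pool.Agent.Helper10.DE.Geo.Defs

/-!
# DE VIII.10  Relative isoperimetric (Poincare) inequality in a box

PROOF.  For `x ∈ S ∩ B`, `y ∈ B \ S` (`B = bx c N`, side `2N+1`) the lattice path from `x` to `y` that
changes the coordinates one after the other (first coordinate `0`, then `1`, ...), stays in `B` and
must contain an edge `{z, z + ev j} ⊆ B` with `¬ (z ∈ S ↔ z + ev j ∈ S)`.  An edge `{z, z + ev j}`
in direction `j` is on the path of `(x, y)` only if `y i = z i` for `i < j` and `x i = z i` for
`i > j`; so it is used by at most `(2N+1)^(j+1) · (2N+1)^(d-j) = (2N+1)^(d+1)` pairs.  Hence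
`|S ∩ B| |B \ S| ≤ (2N+1)^(d+1) #edges ≤ (2N+1)^(d+1) ∑_j chg S B (ev j)`.
(Formal variant without paths: for `0 ≤ j ≤ d` let `m_j(x,y) = (y 0, .., y (j-1), x j, .., x (d-1))`;
if `m_0 = x ∈ S`, `m_d = y ∉ S` there is `j` with `m_j ∈ S`, `m_{j+1} ∉ S`, two points on a line in
direction `j`; given the line and two points on it... count: for fixed `j` the number of pairs
`(x,y)` with this `j` is `(2N+1)^(d-1)` (the `x i`, `i < j`, and the `y i`, `i > j`, are free) times
the number of pairs `(m, m')` of points of `B` on a common line in direction `j` with `m ∈ S`,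
`m' ∉ S`, and on a line with `e` changes there are at most `(2N+1)² · min(1, e)` such pairs, `≤
(2N+1)² e`.)
-/

noncomputable section

namespace DE

variable {d : ℕ}

namespace RelIsoAux

/-- Discrete intermediate value lemma. -/
theorem change_between (P : ℤ → Prop) (a b : ℤ) (ha : P a) (hb : ¬ P b) :
    ∃ t, min a b ≤ t ∧ t < max a b ∧ ¬ (P t ↔ P (t + 1)) := by
  by_contra hcon
  push Not at hcon
  have key : ∀ n : ℕ, min a b + n ≤ max a b → (P (min a b) ↔ P (min a b + n)) := by
    intro n
    induction n with
    | zero =>
      intro _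
      simp
    | succ n ih =>
      intro hn
      push_cast at hn
      have h1 := ih (by omega)
      have h2 := hcon (min a b + n) (by omega) (by omega)
      rw [h1, h2]
      push_cast
      rw [add_assoc]
  have h0 : min a b ≤ max a b := min_le_max
  have h1 := key (max a b - min a b).toNat (by omega)
  have h2 : min a b + ((max a b - min a b).toNat : ℤ) = max a b := by omega
  rw [h2] at h1
  rcases le_total a b with hab | hab
  · rw [min_eq_left hab, max_eq_right hab] at h1
    exact hb (h1.1 ha)
  · rw [min_eq_right hab, max_eq_left hab] at h1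
    exact hb (h1.2 ha)

/-- The first `k` coordinates from `y`, the others from `x`. -/
def mix (x y : Site d) (k : ℕ) : Site d := fun i => if (i : ℕ) < k then y i else x i

theorem exists_step (P : ℕ → Prop) (n : ℕ) (h0 : P 0) (hn : ¬ P n) :
    ∃ k, k < n ∧ P k ∧ ¬ P (k + 1) := by
  by_contra hcon
  push Not at hcon
  apply hn
  have key : ∀ k, k ≤ n → P k := by
    intro k
    induction k with
    | zero => exact fun _ => h0
    | succ k ih => exact fun hk => hcon k (by omega) (ih (by omega))
  exact key n le_rfl

/-- Decoding a pair of sites. -/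
def dec (q : Σ _ : Fin d, Site d × Site d × ℤ) : Site d × Site d :=
  (fun i => if i ≤ q.1 then q.2.2.1 i else q.2.1 i,
    fun i => if i < q.1 then q.2.1 i else if i = q.1 then q.2.2.2 else q.2.2.1 i)

theorem card_bx (c : Site d) (N : ℕ) : (bx c N).card = (2 * N + 1) ^ d := by
  unfold bx
  rw [Fintype.card_piFinset]
  have h : ∀ i : Fin d, (Finset.Icc (c i - N) (c i + N)).card = 2 * N + 1 := by
    intro i
    rw [Int.card_Icc]
    omega
  rw [Finset.prod_congr rfl fun i _ => h i]
  simp

theorem mem_bx {c : Site d} {N : ℕ} {x : Site d} :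
    x ∈ bx c N ↔ ∀ i, c i - N ≤ x i ∧ x i ≤ c i + N := by
  unfold bx
  simp [Fintype.mem_piFinset]

theorem surj (S : Finset (Site d)) (c : Site d) (N : ℕ) :
    Set.SurjOn dec
      ((Finset.univ.sigma fun j : Fin d =>
        ((bx c N).filter fun x => ¬ (x ∈ S ↔ x + ev j ∈ S)) ×ˢ
          (bx c N ×ˢ Finset.Icc (c j - N) (c j + N)) :
            Finset (Σ _ : Fin d, Site d × Site d × ℤ)) : Set (Σ _ : Fin d, Site d × Site d × ℤ))
      (((S ∩ bx c N) ×ˢ (bx c N \ S) : Finset (Site d × Site d)) : Set (Site d × Site d)) := by
  rintro ⟨x, y⟩ hxy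
  rw [Finset.mem_coe, Finset.mem_product, Finset.mem_inter, Finset.mem_sdiff] at hxy
  obtain ⟨⟨hxS, hxB⟩, hyB, hyS⟩ := hxy
  simp only at hxS hxB hyB hyS
  have m0 : mix x y 0 = x := by
    funext i
    simp [mix]
  have md : mix x y d = y := by
    funext i
    simp [mix]
  obtain ⟨k, hk, h1, h2⟩ := exists_step (fun k => mix x y k ∈ S) d
    (by simpa only [m0] using hxS) (by simpa only [md] using hyS)
  set j : Fin d := ⟨k, hk⟩ with hj
  have hx : Function.update (mix x y k) j (x j) = mix x y k := by
    rw [Function.update_eq_self_iff]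
    simp [mix, hj]
  have hy : Function.update (mix x y k) j (y j) = mix x y (k + 1) := by
    funext i
    by_cases hi : i = j
    · subst hi
      simp [mix, hj]
    · rw [Function.update_of_ne hi]
      have hik : (i : ℕ) ≠ k := fun h => hi (Fin.ext h)
      simp only [mix]
      by_cases h3 : (i : ℕ) < k
      · rw [if_pos h3, if_pos (by omega)]
      · rw [if_neg h3, if_neg (by omega)]
  obtain ⟨t, ht1, ht2, ht3⟩ := change_between
    (fun t => Function.update (mix x y k) j t ∈ S) (x j) (y j)
    (by simpa only [hx] using h1) (by simpa only [hy] using h2)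
  have hadd : Function.update (mix x y k) j t + ev j = Function.update (mix x y k) j (t + 1) := by
    funext i
    by_cases hi : i = j
    · subst hi
      simp [ev]
    · rw [Pi.add_apply, Function.update_of_ne hi, Function.update_of_ne hi]
      simp [ev, hi]
  have hxj := mem_bx.1 hxB
  have hyj := mem_bx.1 hyB
  refine ⟨⟨j, Function.update (mix x y k) j t, (fun i => if i ≤ j then x i else y i), y j⟩,
    ?_, ?_⟩
  · rw [Finset.mem_coe, Finset.mem_sigma]
    refine ⟨Finset.mem_univ _, ?_⟩
    rw [Finset.mem_product, Finset.mem_product, Finset.mem_filter]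
    refine ⟨⟨mem_bx.2 fun i => ?_, ?_⟩, mem_bx.2 fun i => ?_, ?_⟩
    · by_cases hi : i = j
      · subst hi
        simp only [Function.update_self]
        have := hxj j
        have := hyj j
        omega
      · simp only [Function.update_of_ne hi, mix]
        split_ifs
        · exact hyj i
        · exact hxj i
    · simp only [hadd]
      exact ht3
    · simp only
      split_ifs
      · exact hxj i
      · exact hyj i
    · exact Finset.mem_Icc.2 (hyj j)
  · unfold dec
    simp only
    refine Prod.ext ?_ ?_
    · funext i
      simp only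
      by_cases hi : i ≤ j
      · rw [if_pos hi, if_pos hi]
      · rw [if_neg hi, Function.update_of_ne (by
          intro h
          exact hi h.le)]
        have : ¬ (i : ℕ) < k := by
          intro h
          apply hi
          exact Fin.le_iff_val_le_val.2 h.le
        simp [mix, this]
    · funext i
      simp only
      by_cases hi : i < j
      · rw [if_pos hi, Function.update_of_ne hi.ne]
        have : (i : ℕ) < k := Fin.lt_def.1 hi
        simp [mix, this]
      · rw [if_neg hi]
        by_cases hij : i = j
        · rw [if_pos hij, hij]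
        · rw [if_neg hij, if_neg]
          intro h
          exact hi (lt_of_le_of_ne h hij)

end RelIsoAux

theorem rel_iso (S : Finset (Site d)) (c : Site d) (N : ℕ) :
    (S ∩ bx c N).card * (bx c N \ S).card ≤
      (2 * N + 1) ^ (d + 1) * ∑ j, chg S (bx c N) (ev j) := by
  have h := Finset.card_le_card_of_surjOn _ (RelIsoAux.surj S c N)
  rw [Finset.card_product, Finset.card_sigma] at h
  refine h.trans (le_of_eq ?_)
  rw [Finset.mul_sum]
  refine Finset.sum_congr rfl fun j _ => ?_
  rw [Finset.card_product, Finset.card_product, RelIsoAux.card_bx, Int.card_Icc]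
  have h1 : (c j + N + 1 - (c j - N)).toNat = 2 * N + 1 := by omega
  rw [h1]
  unfold chg
  ring

end DE
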