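import Pool.Agent.Helper10.DE.RC.Growth
import Pool.Agent.Helper10.DE.RC.Perim
import Pool.Agent.Helper10.DE.RC.RelIso

/-!
# DE VIII.11  Reachability in a box, deterministic form

PROOF.  Let `(C₁, K₁)` be from `perim`, `c₀` from `growth`, `K' = 2 K₁ + 2 K + 3`.
`S` = set of the `a ∈ Q = bx c (K' n)` with `ConnIn Q D f₁ f₂ p a` (`p ∈ bx c n ⊆ Q`; a Finset filter,
classical), `S'` = set of the `b ∈ Q` with `ConnIn Q D f₁ f₂ b q`.
(1) `Mono true S D f_i (bx c (K' n - 2K))`, `Mono false S' D f_i (bx c (K' n - 2 K))`: if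
`y ∈ bx c (K'n - 2K)`, `v ∈ D`, then `y - v ∈ Q` and `f_i⁻¹ y ∈ Q`, and `DU (f_i⁻¹ y) (y - v)`
because `f_i (f_i⁻¹ y) - (y - v) = v ∈ D`.  `K' n - 2K ≥ K₁ (2 n)` and `≥ 2 n`.
(2) `growth` at `p` (`bx p n ⊆ bx c (2n)`): `|S ∩ bx c (2n)| ≥ c₀ n^d`.  Same for `S'` at `q`.
(3) `perim` for the box radius `2 n` and `rel_iso` with `N = 2n`:
`|bx c (2n) \ S| ≤ (4n+1)^(d+1) C₁ (ε (2n)^(d-1) + bad/(2n) + m (2n)^(d-2)) / (c₀ n^d)
 ≤ C₂ (ε n^d + bad + m n^(d-1))` (`(4n+1)^(d+1) ≤ (5n)^(d+1)`), where `bad` is the number of bad points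
in `bx c (K₁ 2 n) ⊆ bx c (K' n)`.  Same for `S'`.
(4) Choose `C = 2 C₂`: the hypothesis gives `|bx c (2n) \ S| < n^d/2`, so both `S` and `S'` contain
more than half of `bx c (2n)` (`|bx c (2n)| = (4n+1)^d ≥ n^d`), hence they meet: `p → z → q`.
-/

noncomputable section

namespace DE

variable {d : ℕ}

private theorem mem_bx {c x : Site d} {n : ℕ} :
    x ∈ bx c n ↔ ∀ i, c i - n ≤ x i ∧ x i ≤ c i + n := by
  simp [bx]

private theorem bx_mono {c : Site d} {n m : ℕ} (h : n ≤ m) : bx c n ⊆ bx c m := by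
  intro x hx
  rw [mem_bx] at hx ⊢
  intro i
  have := hx i
  constructor <;> omega

private theorem bx_trans {c p : Site d} {n : ℕ} (hp : p ∈ bx c n) : bx p n ⊆ bx c (2 * n) := by
  intro x hx
  rw [mem_bx] at hx hp ⊢
  intro i
  have h1 := hx i
  have h2 := hp i
  push_cast
  constructor <;> omega

private theorem card_bx (c : Site d) (n : ℕ) : (bx c n).card = (2 * n + 1) ^ d := by
  unfold bx
  rw [Fintype.card_piFinset]
  have h : ∀ i : Fin d, (Finset.Icc (c i - n) (c i + n)).card = 2 * n + 1 := by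
    intro i
    rw [Int.card_Icc]
    omega
  rw [Finset.prod_congr rfl fun i _ => h i]
  simp

private theorem sub_mem_bx {D : Finset (Site d)} {K : ℕ} (hK : BdK D K) {c y v : Site d}
    {R M : ℕ} (hR : R + K ≤ M) (hy : y ∈ bx c R) (hv : v ∈ D) : y - v ∈ bx c M := by
  rw [mem_bx] at hy ⊢
  intro i
  have h1 := hy i
  have h2 := abs_le.1 (hK.2 v hv i)
  rw [Pi.sub_apply]
  constructor <;> omega

open Classical in
private def SF (c : Site d) (M : ℕ) (D : Finset (Site d)) (f₁ f₂ : Equiv.Perm (Site d))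
    (p : Site d) : Finset (Site d) := (bx c M).filter fun a => ConnIn (bx c M) D f₁ f₂ p a

open Classical in
private def SB (c : Site d) (M : ℕ) (D : Finset (Site d)) (f₁ f₂ : Equiv.Perm (Site d))
    (q : Site d) : Finset (Site d) := (bx c M).filter fun a => ConnIn (bx c M) D f₁ f₂ a q

private theorem mem_SF {c : Site d} {M : ℕ} {D : Finset (Site d)} {f₁ f₂ : Equiv.Perm (Site d)}
    {p a : Site d} : a ∈ SF c M D f₁ f₂ p ↔ a ∈ bx c M ∧ ConnIn (bx c M) D f₁ f₂ p a := by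
  classical
  unfold SF
  rw [Finset.mem_filter]

private theorem mem_SB {c : Site d} {M : ℕ} {D : Finset (Site d)} {f₁ f₂ : Equiv.Perm (Site d)}
    {q a : Site d} : a ∈ SB c M D f₁ f₂ q ↔ a ∈ bx c M ∧ ConnIn (bx c M) D f₁ f₂ a q := by
  classical
  unfold SB
  rw [Finset.mem_filter]

private theorem mono_SF {D : Finset (Site d)} {K : ℕ} (hK : BdK D K)
    {f₁ f₂ g : Equiv.Perm (Site d)} (hg : g = f₁ ∨ g = f₂) (c p : Site d) {M R : ℕ}
    (hR : R + K ≤ M) : Mono true (SF c M D f₁ f₂ p) D g (bx c R) := by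
  intro y hy v hv
  refine ⟨fun _ h => ?_, fun h => absurd h (by simp)⟩
  rw [mem_SF] at h ⊢
  have hm := sub_mem_bx hK hR hy hv
  refine ⟨hm, Relation.ReflTransGen.tail h.2 ⟨?_, h.1, hm⟩⟩
  have e : g (g⁻¹ y) - (y - v) = v := by
    rw [Equiv.Perm.inv_def, Equiv.apply_symm_apply, sub_sub_cancel]
  rcases hg with rfl | rfl
  · left
    rw [e]
    exact hv
  · right
    rw [e]
    exact hv

private theorem mono_SB {D : Finset (Site d)} {K : ℕ} (hK : BdK D K)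
    {f₁ f₂ g : Equiv.Perm (Site d)} (hg : g = f₁ ∨ g = f₂) (hgD : IsD D g) (c q : Site d)
    {M R : ℕ} (hR : R + K ≤ M) : Mono false (SB c M D f₁ f₂ q) D g (bx c R) := by
  intro y hy v hv
  refine ⟨fun h => absurd h (by simp), fun _ h => ?_⟩
  rw [mem_SB] at h ⊢
  have hm : g⁻¹ y ∈ bx c M := by
    have h1 := hgD (g⁻¹ y)
    rw [Equiv.Perm.inv_def, Equiv.apply_symm_apply] at h1
    have h2 := sub_mem_bx hK hR hy h1
    rwa [sub_sub_cancel] at h2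
  refine ⟨hm, Relation.ReflTransGen.head ⟨?_, hm, h.1⟩ h.2⟩
  have e : g (g⁻¹ y) - (y - v) = v := by
    rw [Equiv.Perm.inv_def, Equiv.apply_symm_apply, sub_sub_cancel]
  rcases hg with rfl | rfl
  · left
    rw [e]
    exact hv
  · right
    rw [e]
    exact hv

/-- The arithmetic of step (3). -/
private theorem arith {d : ℕ} (hd : 2 ≤ d) {c₀ C₁ : ℝ} (hc₀ : 0 < c₀) (hC₁ : 0 < C₁) {n : ℕ}
    (hn : 1 ≤ n) {m : ℕ} {ε a x y b b' : ℝ} (hε : 0 ≤ ε) (hx0 : 0 ≤ x) (hb0 : 0 ≤ b)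
    (hbb : b ≤ b') (ha : c₀ * (n : ℝ) ^ d ≤ a) (hax : a * x ≤ (4 * (n : ℝ) + 1) ^ (d + 1) * y)
    (hy : y ≤ C₁ * (ε * (2 * (n : ℝ)) ^ (d - 1) + b / (2 * n) + m * (2 * (n : ℝ)) ^ (d - 2)))
    (hC : 2 * (5 ^ (d + 1) * C₁ * 2 ^ d / c₀) * (ε * (n : ℝ) ^ d + b' + m * (n : ℝ) ^ (d - 1))
      < (n : ℝ) ^ d) : 2 * x < (n : ℝ) ^ d := by
  have hn1 : (1 : ℝ) ≤ n := by exact_mod_cast hn
  have hn0 : (0 : ℝ) < n := by linarith
  obtain ⟨e, rfl⟩ : ∃ e, d = e + 2 := ⟨d - 2, by omega⟩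
  have e1 : e + 2 - 1 = e + 1 := by omega
  have e2 : e + 2 - 2 = e := by omega
  rw [e1, e2] at hy
  rw [e1] at hC
  have hpn : 0 < (n : ℝ) ^ (e + 2) := by positivity
  -- bound for y
  have hy2 : (n : ℝ) * y ≤ C₁ * 2 ^ (e + 2) *
      (ε * (n : ℝ) ^ (e + 2) + b' + m * (n : ℝ) ^ (e + 1)) := by
    have h1 : (n : ℝ) * y ≤ n * (C₁ * (ε * (2 * (n : ℝ)) ^ (e + 1) + b / (2 * n)
        + m * (2 * (n : ℝ)) ^ e)) := mul_le_mul_of_nonneg_left hy hn0.le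
    have h2 : (n : ℝ) * (C₁ * (ε * (2 * (n : ℝ)) ^ (e + 1) + b / (2 * n)
        + m * (2 * (n : ℝ)) ^ e)) = C₁ * (2 ^ (e + 1) * (ε * (n : ℝ) ^ (e + 2)) + b / 2
        + 2 ^ e * (m * (n : ℝ) ^ (e + 1))) := by
      field_simp
      ring
    rw [h2] at h1
    refine h1.trans ?_
    have h3 : (1 : ℝ) ≤ 2 ^ e := one_le_pow₀ (by norm_num)
    have h4 : 0 ≤ ε * (n : ℝ) ^ (e + 2) := by positivity
    have h5 : 0 ≤ (m : ℝ) * (n : ℝ) ^ (e + 1) := by positivity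
    have h6 : (2 : ℝ) ^ (e + 1) = 2 * 2 ^ e := by ring
    have h7 : (2 : ℝ) ^ (e + 2) = 4 * 2 ^ e := by ring
    rw [mul_assoc C₁]
    refine mul_le_mul_of_nonneg_left ?_ hC₁.le
    rw [h6, h7]
    have h8 : b / 2 ≤ 4 * 2 ^ e * b' := by nlinarith
    nlinarith [mul_nonneg (by positivity : (0 : ℝ) ≤ 2 ^ e) h4,
      mul_nonneg (by positivity : (0 : ℝ) ≤ 2 ^ e) h5]
  set W : ℝ := ε * (n : ℝ) ^ (e + 2) + b' + m * (n : ℝ) ^ (e + 1) with hW
  -- the pointwise power bound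
  have hp : (4 * (n : ℝ) + 1) ^ (e + 2 + 1) ≤ 5 ^ (e + 2 + 1) * (n : ℝ) ^ (e + 2 + 1) := by
    rw [← mul_pow]
    exact pow_le_pow_left₀ (by positivity) (by linarith) _
  by_cases hy0 : y ≤ 0
  · -- then x = 0
    have h1 : a * x ≤ 0 := hax.trans (mul_nonpos_of_nonneg_of_nonpos (by positivity) hy0)
    have ha0 : 0 < a := lt_of_lt_of_le (by positivity) ha
    have h2 : x ≤ 0 := by
      by_contra h
      push Not at h
      nlinarith [mul_pos ha0 h]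
    linarith
  · push Not at hy0
    have h1 : c₀ * (n : ℝ) ^ (e + 2) * x ≤ 5 ^ (e + 2 + 1) * (n : ℝ) ^ (e + 2 + 1) * y :=
      (mul_le_mul_of_nonneg_right ha hx0).trans (hax.trans (mul_le_mul_of_nonneg_right hp hy0.le))
    have h2 : (n : ℝ) ^ (e + 2) * (c₀ * x) ≤ (n : ℝ) ^ (e + 2) *
        (5 ^ (e + 2 + 1) * ((n : ℝ) * y)) := by
      calc (n : ℝ) ^ (e + 2) * (c₀ * x) = c₀ * (n : ℝ) ^ (e + 2) * x := by ring
        _ ≤ 5 ^ (e + 2 + 1) * (n : ℝ) ^ (e + 2 + 1) * y := h1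
        _ = (n : ℝ) ^ (e + 2) * (5 ^ (e + 2 + 1) * ((n : ℝ) * y)) := by ring
    have h3 : c₀ * x ≤ 5 ^ (e + 2 + 1) * ((n : ℝ) * y) := le_of_mul_le_mul_left h2 hpn
    have h4 : c₀ * x ≤ 5 ^ (e + 2 + 1) * (C₁ * 2 ^ (e + 2) * W) :=
      h3.trans (mul_le_mul_of_nonneg_left hy2 (by positivity))
    have h5 : x ≤ 5 ^ (e + 2 + 1) * C₁ * 2 ^ (e + 2) / c₀ * W := by
      have h6 : 5 ^ (e + 2 + 1) * C₁ * 2 ^ (e + 2) / c₀ * W
          = (5 ^ (e + 2 + 1) * (C₁ * 2 ^ (e + 2) * W)) / c₀ := by ring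
      rw [h6, le_div_iff₀ hc₀]
      linarith
    linarith

theorem reach_det (hd : 2 ≤ d) (K L : ℕ) (D : Finset (Site d)) (hL : Gen D L) (hK : BdK D K)
    (s : Fin d → ℝ) (hs : IntPt D s) : ∃ (C : ℝ) (K' : ℕ), 0 < C ∧ 1 ≤ K' ∧
    ∀ (f₁ f₂ : Equiv.Perm (Site d)), IsD D f₁ → IsD D f₂ →
    ∀ (c : Site d) (n : ℕ), 1 ≤ n → ∀ (m : ℕ), 1 ≤ m → ∀ ε : ℝ, 0 ≤ ε →
      C * (ε * (n : ℝ) ^ d
        + (((bx c (K' * n)).filter fun x => ε * (m : ℝ) ^ d < ‖defect f₁ f₂ s m x‖).card : ℝ)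
        + m * (n : ℝ) ^ (d - 1)) < (n : ℝ) ^ d →
      ∀ p ∈ bx c n, ∀ q ∈ bx c n, ConnIn (bx c (K' * n)) D f₁ f₂ p q := by
  classical
  obtain ⟨C₁, K₁, hC₁, hK₁, hperim⟩ := perim hd K L D hL hK s hs
  obtain ⟨c₀, hc₀, hgrowth⟩ := growth hd L K
  refine ⟨2 * (5 ^ (d + 1) * C₁ * 2 ^ d / c₀), 2 * K₁ + 2 * K + 3, by positivity, by omega, ?_⟩
  intro f₁ f₂ h₁ h₂ c n hn m hm ε hε hC p hp q hq
  set M : ℕ := (2 * K₁ + 2 * K + 3) * n with hM
  have hKn : K ≤ K * n := Nat.le_mul_of_pos_right K hn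
  have hM1 : K₁ * (2 * n) + K ≤ M := by
    rw [hM]
    nlinarith
  have hM2 : 2 * n + K ≤ M := by
    rw [hM]
    nlinarith
  have hM3 : n ≤ M := by omega
  -- the general bound
  have key : ∀ (σ : Bool) (S : Finset (Site d)) (a : Site d), a ∈ bx c n → a ∈ S →
      (∀ R : ℕ, R + K ≤ M → Mono σ S D f₁ (bx c R)) →
      (∀ R : ℕ, R + K ≤ M → Mono σ S D f₂ (bx c R)) →
      2 * (((bx c (2 * n)) \ S).card : ℝ) < (n : ℝ) ^ d := by
    intro σ S a ha haS hm1 hm2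
    have hg := hgrowth D hL hK σ f₁ h₁ S (bx c (2 * n)) a haS (hm1 _ hM2) n (bx_trans ha)
    have hper := hperim σ f₁ f₂ h₁ h₂ S c (2 * n) (by omega) (hm1 _ hM1) (hm2 _ hM1) m hm ε hε
    have hrel := rel_iso S c (2 * n)
    have hcard : ((S ∩ bx a n).card : ℝ) ≤ ((S ∩ bx c (2 * n)).card : ℝ) := by
      exact_mod_cast Finset.card_le_card
        (Finset.inter_subset_inter (Finset.Subset.refl S) (bx_trans ha))
    have hbad : ((((bx c (K₁ * (2 * n))).filter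
          fun x => ε * (m : ℝ) ^ d < ‖defect f₁ f₂ s m x‖).card : ℕ) : ℝ) ≤
        (((bx c M).filter fun x => ε * (m : ℝ) ^ d < ‖defect f₁ f₂ s m x‖).card : ℝ) := by
      exact_mod_cast Finset.card_le_card
        (Finset.filter_subset_filter _ (bx_mono (by omega)))
    refine arith hd hc₀ hC₁ hn hε (Nat.cast_nonneg _) (Nat.cast_nonneg _) hbad
      (hg.trans hcard) (y := ∑ j, (chg S (bx c (2 * n)) (ev j) : ℝ)) ?_ ?_ hC
    · have h1 : (((S ∩ bx c (2 * n)).card * ((bx c (2 * n)) \ S).card : ℕ) : ℝ) ≤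
          (((2 * (2 * n) + 1) ^ (d + 1) * ∑ j, chg S (bx c (2 * n)) (ev j) : ℕ) : ℝ) := by
        exact_mod_cast hrel
      push_cast at h1
      have h2 : (2 * (2 * (n : ℝ)) + 1) = 4 * (n : ℝ) + 1 := by ring
      rw [h2] at h1
      exact h1
    · have h3 := hper
      push_cast at h3
      exact h3
  have hpM : p ∈ bx c M := bx_mono hM3 hp
  have hqM : q ∈ bx c M := bx_mono hM3 hq
  have k1 := key true (SF c M D f₁ f₂ p) p hp (mem_SF.2 ⟨hpM, Relation.ReflTransGen.refl⟩)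
    (fun R hR => mono_SF hK (Or.inl rfl) c p hR) (fun R hR => mono_SF hK (Or.inr rfl) c p hR)
  have k2 := key false (SB c M D f₁ f₂ q) q hq (mem_SB.2 ⟨hqM, Relation.ReflTransGen.refl⟩)
    (fun R hR => mono_SB hK (Or.inl rfl) h₁ c q hR)
    (fun R hR => mono_SB hK (Or.inr rfl) h₂ c q hR)
  -- the two sets meet
  have hex : ∃ z ∈ bx c (2 * n), z ∈ SF c M D f₁ f₂ p ∧ z ∈ SB c M D f₁ f₂ q := by
    by_contra hno
    push Not at hno
    have hsub : bx c (2 * n) ⊆ ((bx c (2 * n)) \ SF c M D f₁ f₂ p) ∪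
        ((bx c (2 * n)) \ SB c M D f₁ f₂ q) := by
      intro z hz
      rw [Finset.mem_union, Finset.mem_sdiff, Finset.mem_sdiff]
      by_cases h1 : z ∈ SF c M D f₁ f₂ p
      · exact Or.inr ⟨hz, hno z hz h1⟩
      · exact Or.inl ⟨hz, h1⟩
    have h1 := (Finset.card_le_card hsub).trans (Finset.card_union_le _ _)
    rw [card_bx] at h1
    have h2 : ((((2 * (2 * n) + 1) ^ d : ℕ)) : ℝ) ≤
        (((bx c (2 * n)) \ SF c M D f₁ f₂ p).card : ℝ) +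
        (((bx c (2 * n)) \ SB c M D f₁ f₂ q).card : ℝ) := by
      exact_mod_cast h1
    have h3 : (n : ℝ) ^ d ≤ ((((2 * (2 * n) + 1) ^ d : ℕ)) : ℝ) := by
      push_cast
      refine pow_le_pow_left₀ (by positivity) ?_ _
      have : (0 : ℝ) ≤ n := Nat.cast_nonneg n
      linarith
    linarith
  obtain ⟨z, -, hz1, hz2⟩ := hex
  exact Relation.ReflTransGen.trans (mem_SF.1 hz1).2 (mem_SB.1 hz2).2

end DE
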